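import Pool.Agent.Helper84.GN.Reg
import Pool.Agent.Helper9.S3.Defs

/-!
# Project FQ (MP_0f6f3f_an), layer GD: group data

`GD 𝔾 ι`: Cartan decomposition `g = kL g * ea (mu g) * kR g` with gaps `mu g i ≥ 0` (`i : ι` the nodes, `ea` the flat in the coordinates given by the simple roots), for every node `l` a representation `rho l` with
weights `top l - n l i` (`n l 0 = 0`, `n l i l ≥ 1` for `i ≠ 0`), orthogonal on `K`; `C` the coefficients of the simple roots with respect to the highest weights. `lin j g`: `g` fixes the base line of node `j`; `hyp j g`: `g` fixes the base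
hyperplane. `par`, `par'`: compactness of the conjugates, `cell`: the big cell, with compactness, `lev`: Cartan decomposition of the centralizers.
`D.opp j g h = rho j (kR g * kL h) 0 0`. `SI D Γ`: the representations are irreducible for all subgroups of finite index.
`Gp G ι`: gap functions on a discrete group. `WC`, `TC`, `FC`, `chR`: the strata of the chains of types.
-/

set_option autoImplicit false

open Filter Topology Matrix

namespace Pool.Agent.Helper84.GDL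

/-- Group data. -/
structure GD (𝔾 : Type) [Group 𝔾] [TopologicalSpace 𝔾] (ι : Type) [Fintype ι] [DecidableEq ι] where
  /-- compact subgroup -/
  K : Subgroup 𝔾
  cpt : IsCompact (K : Set 𝔾)
  /-- the flat -/
  ea : (ι → ℝ) → 𝔾
  ea_add : ∀ c c', ea (c + c') = ea c * ea c'
  ea_cont : Continuous ea
  /-- left part -/
  kL : 𝔾 → 𝔾
  /-- right part -/
  kR : 𝔾 → 𝔾
  /-- the gaps -/
  mu : 𝔾 → ι → ℝ
  kL_mem : ∀ g, kL g ∈ K
  kR_mem : ∀ g, kR g ∈ K
  mu_nonneg : ∀ g i, 0 ≤ mu g i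
  kak : ∀ g, g = kL g * ea (mu g) * kR g
  /-- dimensions -/
  d : ι → ℕ
  /-- the representations -/
  rho : ∀ l : ι, 𝔾 →* Matrix (Fin (d l + 1)) (Fin (d l + 1)) ℝ
  rho_cont : ∀ l, Continuous (rho l)
  orth : ∀ l, ∀ k ∈ K, (rho l k)ᵀ * rho l k = 1
  /-- differences of weights -/
  n : ∀ l : ι, Fin (d l + 1) → ι → ℕ
  /-- highest weights -/
  top : ι → ι → ℝ
  top_nonneg : ∀ l j, 0 ≤ top l j
  rho_ea : ∀ l c, rho l (ea c) = diagonal fun i => Real.exp (∑ j, (top l j - n l i j) * c j)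
  n_zero : ∀ l j, n l 0 j = 0
  n_pos : ∀ l i, i ≠ 0 → 1 ≤ n l i l
  /-- simple roots in terms of the highest weights -/
  C : ι → ι → ℝ
  C_top : ∀ (c : ι → ℝ) (i : ι), ∑ l, C i l * ∑ j, top l j * c j = c i
  C_nonpos : ∀ i l, i ≠ l → C i l ≤ 0
  C_pos : ∀ j, ∃ u : ι → ℝ, (∀ i, 0 ≤ u i) ∧ u j = 0 ∧ ∀ l, l ≠ j → 0 < ∑ i, u i * C i l
  par : ∀ (j : ι) (B : Set 𝔾), IsCompact B → ∃ B' : Set 𝔾, IsCompact B' ∧
    ∀ g ∈ B, (∀ i, i ≠ 0 → rho j g i 0 = 0) → ∀ t : ℝ, 0 ≤ t → ea (Pi.single j (-t)) * g * ea (Pi.single j t) ∈ B'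
  par' : ∀ (j : ι) (B : Set 𝔾), IsCompact B → ∃ B' : Set 𝔾, IsCompact B' ∧
    ∀ g ∈ B, (∀ i, i ≠ 0 → rho j g 0 i = 0) → ∀ t : ℝ, 0 ≤ t → ea (Pi.single j t) * g * ea (Pi.single j (-t)) ∈ B'
  cell : ∀ (j : ι) (δ : ℝ), 0 < δ → ∀ B : Set 𝔾, IsCompact B → ∃ B' : Set 𝔾, IsCompact B' ∧
    ∀ g ∈ B, δ ≤ |rho j g 0 0| → ∃ x ∈ B', ∃ l ∈ B', ∃ y ∈ B', g = x * l * y ∧
      Tendsto (fun t : ℝ => ea (Pi.single j t) * x * ea (Pi.single j (-t))) atTop (𝓝 1) ∧
      (∀ t : ℝ, l * ea (Pi.single j t) = ea (Pi.single j t) * l) ∧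
      Tendsto (fun t : ℝ => ea (Pi.single j (-t)) * y * ea (Pi.single j t)) atTop (𝓝 1)
  lev : ∀ (S : Set ι) (l : 𝔾), (∀ c : ι → ℝ, (∀ i, i ∉ S → c i = 0) → l * ea c = ea c * l) →
    ∃ k1 ∈ K, ∃ k2 ∈ K, ∃ c : ι → ℝ, (∀ i, i ∉ S → 0 ≤ c i) ∧ l = k1 * ea c * k2 ∧
      ∀ c' : ι → ℝ, (∀ i, i ∉ S → c' i = 0) → k1 * ea c' = ea c' * k1 ∧ k2 * ea c' = ea c' * k2

section Basic

variable {𝔾 : Type} [Group 𝔾] [TopologicalSpace 𝔾] {ι : Type} [Fintype ι] [DecidableEq ι] (D : GD 𝔾 ι)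

namespace GD

/-- Opposition of the right data of `g` and the left data of `h`. -/
noncomputable def opp (j : ι) (g h : 𝔾) : ℝ := D.rho j (D.kR g * D.kL h) 0 0

/-- The logarithm of the norm of `rho l g`. -/
noncomputable def tw (l : ι) (g : 𝔾) : ℝ := ∑ j, D.top l j * D.mu g j

/-- The right datum (unit vector, determined up to the sign for large gaps). -/
def xv (j : ι) (g : 𝔾) : Fin (D.d j + 1) → ℝ := fun i => D.rho j (D.kR g) 0 i

/-- The left datum. -/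
def yv (j : ι) (g : 𝔾) : Fin (D.d j + 1) → ℝ := fun i => D.rho j (D.kL g) i 0

end GD

/-- The representations are irreducible for all subgroups of finite index. -/
def SI (Γ : Subgroup 𝔾) : Prop := ∀ (l : ι) (Γ' : Subgroup 𝔾), Γ' ≤ Γ → (Γ'.subgroupOf Γ).FiniteIndex →
  ∀ W : Submodule ℝ (Fin (D.d l + 1) → ℝ), (∀ γ ∈ Γ', ∀ w ∈ W, D.rho l γ *ᵥ w ∈ W) → W = ⊥ ∨ W = ⊤

end Basic

/-- Gap functions on a discrete group. -/
structure Gp (G : Type) [Group G] (ι : Type) [Fintype ι] where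
  /-- the gaps -/
  β : G → ι → ℝ
  nonneg : ∀ γ i, 0 ≤ β γ i
  shift : ∀ g h : G, ∃ C : ℝ, ∀ γ i, |β (g⁻¹ * γ * h) i - β γ i| ≤ C
  fin : ∀ R : ℝ, {γ | ∀ i, β γ i ≤ R}.Finite

namespace Gp

variable {G : Type} [Group G] {ι : Type} [Fintype ι] (S : Gp G ι)

/-- Scale separation at all levels of a chain. -/
def TC (c : List (Finset ι)) (m : ℕ) : Set G :=
  {γ | ∀ I ∈ c, ∀ j, j ∉ I → (m : ℝ) * (1 + ∑ i ∈ I, S.β γ i) ≤ S.β γ j}

/-- The gaps in `J` are at most `n`. -/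
def WC (J : Finset ι) (n : ℕ) : Set G := {γ | ∀ i ∈ J, S.β γ i ≤ n}

theorem sum_nonneg (γ : G) (I : Finset ι) : 0 ≤ ∑ i ∈ I, S.β γ i := Finset.sum_nonneg fun i _ => S.nonneg γ i

theorem TC_anti (c : List (Finset ι)) {m m' : ℕ} (h : m ≤ m') : S.TC c m' ⊆ S.TC c m := by
  intro γ hγ I hI j hj
  refine le_trans (mul_le_mul_of_nonneg_right (by exact_mod_cast h) ?_) (hγ I hI j hj)
  linarith [S.sum_nonneg γ I]

theorem WC_mono (J : Finset ι) {n n' : ℕ} (h : n ≤ n') : S.WC J n ⊆ S.WC J n' :=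
  fun _ hγ i hi => (hγ i hi).trans (by exact_mod_cast h)

/-- The filters of a chain. -/
def FC (J : Finset ι) (c : List (Finset ι)) (n : ℕ) : Filter G := 𝓟 (S.WC J n) ⊓ ⨅ m : ℕ, 𝓟 (S.TC (J :: c) m)

theorem mem_FC {J : Finset ι} {c : List (Finset ι)} {n : ℕ} {A : Set G} :
    A ∈ S.FC J c n ↔ ∃ m : ℕ, S.WC J n ∩ S.TC (J :: c) m ⊆ A := by
  have hd : Directed (· ≥ ·) fun m : ℕ => 𝓟 (S.TC (J :: c) m) := by
    intro m m'
    exact ⟨max m m', principal_mono.2 (S.TC_anti _ (le_max_left _ _)), principal_mono.2 (S.TC_anti _ (le_max_right _ _))⟩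
  unfold FC
  rw [inf_comm, mem_inf_principal, mem_iInf_of_directed hd]
  constructor
  · rintro ⟨m, hm⟩
    exact ⟨m, fun γ hγ => (mem_principal.1 hm) hγ.2 hγ.1⟩
  · rintro ⟨m, hm⟩
    exact ⟨m, mem_principal.2 fun γ hγ h => hm ⟨h, hγ⟩⟩

theorem TC_mem_FC (J : Finset ι) (c : List (Finset ι)) (m n : ℕ) : S.TC (J :: c) m ∈ S.FC J c n :=
  S.mem_FC.2 ⟨m, Set.inter_subset_right⟩

theorem TC_shift (c : List (Finset ι)) {γ γ' : G} {C : ℕ} (hC : ∀ i, |S.β γ' i - S.β γ i| ≤ C) (m' : ℕ)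
    (h : γ ∈ S.TC c (m' * (1 + Fintype.card ι * C) + C)) : γ' ∈ S.TC c m' := by
  intro I hI j hj
  have h1 := h I hI j hj
  have h2 := abs_le.1 (hC j)
  have h3 : ∑ i ∈ I, S.β γ' i ≤ ∑ i ∈ I, S.β γ i + Fintype.card ι * C := by
    calc ∑ i ∈ I, S.β γ' i ≤ ∑ i ∈ I, (S.β γ i + C) := Finset.sum_le_sum fun i _ => by linarith [(abs_le.1 (hC i)).2]
      _ = ∑ i ∈ I, S.β γ i + I.card * C := by rw [Finset.sum_add_distrib, Finset.sum_const, nsmul_eq_mul]
      _ ≤ ∑ i ∈ I, S.β γ i + Fintype.card ι * C := by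
          have h4 : (I.card : ℝ) ≤ Fintype.card ι := by exact_mod_cast Finset.card_le_univ I
          have h5 : (0 : ℝ) ≤ C := Nat.cast_nonneg C
          nlinarith
  have h0 := S.sum_nonneg γ I
  push_cast at h1
  set X := ∑ i ∈ I, S.β γ i with hX
  set X' := ∑ i ∈ I, S.β γ' i with hX'
  have hm : (0 : ℝ) ≤ m' := Nat.cast_nonneg m'
  have hc : (0 : ℝ) ≤ C := Nat.cast_nonneg C
  have hCN : (0 : ℝ) ≤ Fintype.card ι * C := by positivity
  have e1 : (m' : ℝ) * (1 + X') ≤ m' * (1 + X + Fintype.card ι * C) := mul_le_mul_of_nonneg_left (by linarith) hm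
  have e2 : (m' : ℝ) * (1 + X + Fintype.card ι * C) + C ≤ (m' * (1 + Fintype.card ι * C) + C) * (1 + X) := by
    have h5 : (m' * (1 + Fintype.card ι * C) + C) * (1 + X) - ((m' : ℝ) * (1 + X + Fintype.card ι * C) + C) =
        m' * (Fintype.card ι * C * X) + C * X := by ring
    have h6 : 0 ≤ (m' : ℝ) * (Fintype.card ι * C * X) + C * X := by positivity
    linarith
  linarith [h2.1]

/-- The stratum of the chain `J :: c`: gaps in `J` bounded, scale separation. -/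
def chR (J : Finset ι) (c : List (Finset ι)) : GN.Reg G where
  W := S.WC J
  F := S.FC J c
  monoF n := by
    intro A hA
    obtain ⟨R, hR⟩ := S.mem_FC.1 hA
    exact S.mem_FC.2 ⟨R, (Set.inter_subset_inter_left _ (S.WC_mono J (Nat.le_succ n))).trans hR⟩
  le n := inf_le_left
  shift g h n := by
    obtain ⟨C, hC⟩ := S.shift g h
    obtain ⟨C', hC'⟩ := exists_nat_ge C
    refine ⟨n + C', fun A hA => ?_⟩
    obtain ⟨m, hm⟩ := S.mem_FC.1 hA
    refine S.mem_FC.2 ⟨m * (1 + Fintype.card ι * C') + C', fun γ hγ => hm ⟨fun i hi => ?_, ?_⟩⟩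
    · have h1 := hγ.1 i hi
      have h2 := (abs_le.1 ((hC γ i).trans hC')).2
      push_cast
      linarith
    · exact S.TC_shift (J :: c) (fun i => (hC γ i).trans hC') m hγ.2

/-- The stratum of type `j`: all gaps except the one of `j` are bounded. -/
def one [DecidableEq ι] (j : ι) : GN.Reg G := S.chR (Finset.univ.erase j) []

theorem mem_one [DecidableEq ι] {j : ι} {n : ℕ} {A : Set G} : A ∈ (S.one j).F n ↔
    ∃ L : ℝ, ∀ γ, (∀ i, i ≠ j → S.β γ i ≤ n) → L ≤ S.β γ j → γ ∈ A := by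
  constructor
  · intro h
    obtain ⟨m, hm⟩ := S.mem_FC.1 h
    refine ⟨m * (1 + Fintype.card ι * n), fun γ h1 h2 => hm ⟨fun i hi => h1 i (Finset.mem_erase.1 hi).1, ?_⟩⟩
    intro I hI k hk
    rw [List.mem_singleton] at hI
    subst hI
    have hkj : k = j := by
      by_contra h3
      exact hk (Finset.mem_erase.2 ⟨h3, Finset.mem_univ _⟩)
    subst hkj
    refine le_trans (mul_le_mul_of_nonneg_left ?_ (Nat.cast_nonneg m)) h2
    have h3 : ∑ i ∈ Finset.univ.erase k, S.β γ i ≤ ∑ i ∈ Finset.univ.erase k, (n : ℝ) :=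
      Finset.sum_le_sum fun i hi => h1 i (Finset.mem_erase.1 hi).1
    rw [Finset.sum_const, nsmul_eq_mul] at h3
    have h4 : ((Finset.univ.erase k : Finset ι).card : ℝ) ≤ Fintype.card ι := by
      exact_mod_cast Finset.card_le_univ _
    have h5 : (0 : ℝ) ≤ n := Nat.cast_nonneg n
    nlinarith
  · rintro ⟨L, hL⟩
    obtain ⟨m, hm⟩ := exists_nat_ge L
    refine S.mem_FC.2 ⟨m, fun γ hγ => hL γ (fun i hi => hγ.1 i (Finset.mem_erase.2 ⟨hi, Finset.mem_univ _⟩)) ?_⟩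
    have h1 := hγ.2 _ (List.mem_singleton.2 rfl) j (Finset.notMem_erase j _)
    have h2 := S.sum_nonneg γ (Finset.univ.erase j)
    have h3 : (m : ℝ) * 1 ≤ m * (1 + ∑ i ∈ Finset.univ.erase j, S.β γ i) :=
      mul_le_mul_of_nonneg_left (by linarith) (Nat.cast_nonneg m)
    linarith

end Gp

end Pool.Agent.Helper84.GDL
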