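import Pool.Agent.Helper84.GD.Defs

/-!
# Project FQ (MP_0f6f3f_an), layer GD: norms and gaps

`norm_rho`: `‖rho l g‖ = exp (tw l g)` (operator norm). `tw_mul_le`, `mu_eq`: the gaps in terms of the logarithms of the norms. `mu_ea`. `mu_shift`: bounded perturbations change the gaps by a bounded amount.
`tw_opp`: lower bound for products with opposite data. `add_all`, `add_one`: the gaps are additive for products with opposite data. `proper`.
-/

set_option autoImplicit false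

open Filter Topology Matrix

namespace Pool.Agent.Helper84.GDL

open scoped Matrix.Norms.L2Operator Pointwise

variable {𝔾 : Type} [Group 𝔾] [TopologicalSpace 𝔾] {ι : Type} [Fintype ι] [DecidableEq ι] (D : GD 𝔾 ι)

namespace GD

theorem ea_zero : D.ea 0 = 1 := by
  have h := D.ea_add 0 0
  rw [add_zero] at h
  exact (mul_eq_left.1 h.symm)

theorem ea_neg (c : ι → ℝ) : D.ea (-c) = (D.ea c)⁻¹ := by
  have h := D.ea_add (-c) c
  rw [neg_add_cancel, ea_zero] at h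
  exact eq_inv_of_mul_eq_one_left h.symm

theorem ea_comm (c c' : ι → ℝ) : D.ea c * D.ea c' = D.ea c' * D.ea c := by
  rw [← D.ea_add, add_comm, D.ea_add]

theorem norm_orth {l : ι} {k : 𝔾} (hk : k ∈ D.K) : ‖D.rho l k‖ = 1 := by
  have h1 : ‖(D.rho l k)ᴴ * D.rho l k‖ = ‖D.rho l k‖ * ‖D.rho l k‖ := Matrix.l2_opNorm_conjTranspose_mul_self _
  rw [conjTranspose_eq_transpose_of_trivial, D.orth l k hk, norm_one] at h1
  have h2 := norm_nonneg (D.rho l k)
  nlinarith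

theorem norm_ea {l : ι} {c : ι → ℝ} (hc : ∀ j, 0 ≤ c j) : ‖D.rho l (D.ea c)‖ = Real.exp (∑ j, D.top l j * c j) := by
  rw [D.rho_ea, Matrix.l2_opNorm_diagonal]
  refine le_antisymm ?_ ?_
  · rw [pi_norm_le_iff_of_nonneg (Real.exp_pos _).le]
    intro i
    rw [Real.norm_eq_abs, Real.abs_exp]
    refine Real.exp_le_exp.2 (Finset.sum_le_sum fun j _ => ?_)
    refine mul_le_mul_of_nonneg_right ?_ (hc j)
    have : (0 : ℝ) ≤ D.n l i j := Nat.cast_nonneg _
    linarith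
  · refine le_trans (le_of_eq ?_) (norm_le_pi_norm _ 0)
    rw [Real.norm_eq_abs, Real.abs_exp]
    refine congrArg Real.exp (Finset.sum_congr rfl fun j _ => ?_)
    rw [D.n_zero, Nat.cast_zero, sub_zero]

theorem norm_mul_orth {l : ι} {k : 𝔾} (hk : k ∈ D.K) (A : Matrix (Fin (D.d l + 1)) (Fin (D.d l + 1)) ℝ) : ‖A * D.rho l k‖ = ‖A‖ := by
  refine le_antisymm ((norm_mul_le _ _).trans (by rw [D.norm_orth hk, mul_one])) ?_
  have h1 : A = A * D.rho l k * D.rho l k⁻¹ := by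
    rw [Matrix.mul_assoc, ← map_mul, mul_inv_cancel, map_one, Matrix.mul_one]
  conv_lhs => rw [h1]
  exact (norm_mul_le _ _).trans (by rw [D.norm_orth (D.K.inv_mem hk), mul_one])

theorem norm_orth_mul {l : ι} {k : 𝔾} (hk : k ∈ D.K) (A : Matrix (Fin (D.d l + 1)) (Fin (D.d l + 1)) ℝ) : ‖D.rho l k * A‖ = ‖A‖ := by
  refine le_antisymm ((norm_mul_le _ _).trans (by rw [D.norm_orth hk, one_mul])) ?_
  have h1 : A = D.rho l k⁻¹ * (D.rho l k * A) := by
    rw [← Matrix.mul_assoc, ← map_mul, inv_mul_cancel, map_one, Matrix.one_mul]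
  conv_lhs => rw [h1]
  exact (norm_mul_le _ _).trans (by rw [D.norm_orth (D.K.inv_mem hk), one_mul])

/-- The norms. -/
theorem norm_kak {l : ι} {k k' : 𝔾} (hk : k ∈ D.K) (hk' : k' ∈ D.K) {c : ι → ℝ} (hc : ∀ j, 0 ≤ c j) :
    ‖D.rho l (k * D.ea c * k')‖ = Real.exp (∑ j, D.top l j * c j) := by
  rw [map_mul, map_mul, D.norm_mul_orth hk', D.norm_orth_mul hk, D.norm_ea hc]

theorem norm_rho (l : ι) (g : 𝔾) : ‖D.rho l g‖ = Real.exp (D.tw l g) := by
  conv_lhs => rw [D.kak g]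
  exact D.norm_kak (D.kL_mem g) (D.kR_mem g) (D.mu_nonneg g)

theorem tw_nonneg (l : ι) (g : 𝔾) : 0 ≤ D.tw l g :=
  Finset.sum_nonneg fun j _ => mul_nonneg (D.top_nonneg l j) (D.mu_nonneg g j)

theorem tw_eq (l : ι) (g : 𝔾) : D.tw l g = Real.log ‖D.rho l g‖ := by rw [norm_rho, Real.log_exp]

theorem tw_mul_le (l : ι) (g h : 𝔾) : D.tw l (g * h) ≤ D.tw l g + D.tw l h := by
  have h1 := norm_mul_le (D.rho l g) (D.rho l h)
  rw [← map_mul, norm_rho, norm_rho, norm_rho, ← Real.exp_add] at h1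
  exact Real.exp_le_exp.1 h1

theorem mu_eq (g : 𝔾) (i : ι) : D.mu g i = ∑ l, D.C i l * D.tw l g := (D.C_top (D.mu g) i).symm

/-- The gaps are determined by any Cartan decomposition. -/
theorem mu_kak {k k' : 𝔾} (hk : k ∈ D.K) (hk' : k' ∈ D.K) {c : ι → ℝ} (hc : ∀ j, 0 ≤ c j) : D.mu (k * D.ea c * k') = c := by
  funext i
  rw [D.mu_eq, ← D.C_top c i]
  refine Finset.sum_congr rfl fun l _ => ?_
  rw [D.tw_eq, D.norm_kak hk hk' hc, Real.log_exp]

theorem mu_ea {c : ι → ℝ} (hc : ∀ j, 0 ≤ c j) : D.mu (D.ea c) = c := by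
  have h := D.mu_kak D.K.one_mem D.K.one_mem hc
  rwa [one_mul, mul_one] at h

theorem mu_K {k : 𝔾} (hk : k ∈ D.K) : D.mu k = 0 := by
  have h := D.mu_kak hk D.K.one_mem (c := 0) fun _ => le_rfl
  rwa [D.ea_zero, mul_one, mul_one] at h

theorem tw_sub_le (l : ι) (g h k : 𝔾) : |D.tw l (g * h * k) - D.tw l h| ≤ D.tw l g + D.tw l g⁻¹ + D.tw l k + D.tw l k⁻¹ := by
  have h1 := D.tw_mul_le l (g * h) k
  have h2 := D.tw_mul_le l g h
  have h3 := D.tw_mul_le l g⁻¹ (g * h * k)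
  have h4 := D.tw_mul_le l (g⁻¹ * (g * h * k)) k⁻¹
  have e : g⁻¹ * (g * h * k) * k⁻¹ = h := by group
  rw [e] at h4
  have a1 := D.tw_nonneg l g
  have a2 := D.tw_nonneg l g⁻¹
  have a3 := D.tw_nonneg l k
  have a4 := D.tw_nonneg l k⁻¹
  rw [abs_le]
  constructor <;> linarith

theorem mu_sub (g h : 𝔾) (i : ι) : D.mu g i - D.mu h i = ∑ l, D.C i l * (D.tw l g - D.tw l h) := by
  rw [D.mu_eq, D.mu_eq, ← Finset.sum_sub_distrib]
  exact Finset.sum_congr rfl fun l _ => by ring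

theorem mu_sub_le (g h : 𝔾) {R : ℝ} (hR : ∀ l, |D.tw l g - D.tw l h| ≤ R) (i : ι) :
    |D.mu g i - D.mu h i| ≤ (∑ l, |D.C i l|) * R := by
  rw [D.mu_sub, Finset.sum_mul]
  refine (Finset.abs_sum_le_sum_abs _ _).trans (Finset.sum_le_sum fun l _ => ?_)
  rw [abs_mul]
  exact mul_le_mul_of_nonneg_left (hR l) (abs_nonneg _)

/-- The bound of `tw` on a compact set. -/
theorem exists_bd [IsTopologicalGroup 𝔾] {B : Set 𝔾} (hB : IsCompact B) : ∃ R : ℝ, 0 ≤ R ∧ ∀ g ∈ B, ∀ l, D.tw l g ≤ R ∧ D.tw l g⁻¹ ≤ R := by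
  have h1 : ∀ l, ∃ R : ℝ, ∀ g ∈ B, D.tw l g ≤ R ∧ D.tw l g⁻¹ ≤ R := by
    intro l
    have hc : Continuous fun g : 𝔾 => ‖D.rho l g‖ := (D.rho_cont l).norm
    obtain ⟨R1, h1⟩ := (hB.image hc).bddAbove
    obtain ⟨R2, h2⟩ := (hB.image (hc.comp continuous_inv)).bddAbove
    have key : ∀ {R : ℝ} {g : 𝔾}, ‖D.rho l g‖ ≤ R → D.tw l g ≤ Real.log R := by
      intro R g h
      rw [D.tw_eq]
      refine Real.log_le_log ?_ h
      rw [D.norm_rho]
      exact Real.exp_pos _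
    refine ⟨max (Real.log R1) (Real.log R2), fun g hg => ⟨(key (h1 ⟨g, hg, rfl⟩)).trans (le_max_left _ _),
      (key (h2 ⟨g, hg, rfl⟩)).trans (le_max_right _ _)⟩⟩
  choose R hR using h1
  refine ⟨∑ l, |R l|, Finset.sum_nonneg fun l _ => abs_nonneg _, fun g hg l => ?_⟩
  have h2 : R l ≤ ∑ l, |R l| := (le_abs_self _).trans (Finset.single_le_sum (f := fun l => |R l|) (fun l _ => abs_nonneg _) (Finset.mem_univ l))
  exact ⟨((hR l g hg).1).trans h2, ((hR l g hg).2).trans h2⟩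

/-- Bounded perturbations change the gaps by a bounded amount. -/
theorem mu_shift [IsTopologicalGroup 𝔾] {B : Set 𝔾} (hB : IsCompact B) : ∃ R : ℝ, 0 ≤ R ∧
    ∀ g ∈ B, ∀ k ∈ B, ∀ h i, |D.mu (g * h * k) i - D.mu h i| ≤ R := by
  obtain ⟨R, hR0, hR⟩ := D.exists_bd hB
  refine ⟨∑ i, (∑ l, |D.C i l|) * (4 * R), Finset.sum_nonneg fun i _ => mul_nonneg (Finset.sum_nonneg fun l _ => abs_nonneg _) (by linarith),
    fun g hg k hk h i => ?_⟩
  refine (D.mu_sub_le _ _ (R := 4 * R) (fun l => (D.tw_sub_le l g h k).trans ?_) i).trans ?_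
  · linarith [(hR g hg l).1, (hR g hg l).2, (hR k hk l).1, (hR k hk l).2]
  · exact Finset.single_le_sum (f := fun i => (∑ l, |D.C i l|) * (4 * R))
      (fun i _ => mul_nonneg (Finset.sum_nonneg fun l _ => abs_nonneg _) (by linarith)) (Finset.mem_univ i)

/-- Lower bound of the norm of a product. -/
theorem tw_opp {l : ι} {g h : 𝔾} {δ : ℝ} (hδ : 0 < δ) (ho : δ ≤ |D.opp l g h|) :
    D.tw l g + D.tw l h + Real.log δ ≤ D.tw l (g * h) := by
  have e1 : g * h = D.kL g * (D.ea (D.mu g) * (D.kR g * D.kL h) * D.ea (D.mu h)) * D.kR h := by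
    conv_lhs => rw [D.kak g, D.kak h]
    group
  have h1 : ‖D.rho l (g * h)‖ = ‖D.rho l (D.ea (D.mu g)) * D.rho l (D.kR g * D.kL h) * D.rho l (D.ea (D.mu h))‖ := by
    rw [e1, map_mul, map_mul, D.norm_mul_orth (D.kR_mem h), D.norm_orth_mul (D.kL_mem g), map_mul, map_mul]
  set M := D.rho l (D.ea (D.mu g)) * D.rho l (D.kR g * D.kL h) * D.rho l (D.ea (D.mu h)) with hM
  have h2 : |M 0 0| ≤ ‖M‖ := by
    have h3 := Matrix.l2_opNorm_mulVec M (PiLp.single 2 (0 : Fin (D.d l + 1)) (1 : ℝ) : EuclideanSpace ℝ (Fin (D.d l + 1)))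
    rw [PiLp.norm_single, norm_one, mul_one] at h3
    refine le_trans ?_ h3
    refine le_trans (le_of_eq ?_) (PiLp.norm_apply_le _ (0 : Fin (D.d l + 1)))
    rw [Real.norm_eq_abs]
    congr 1
    simp
  have h3 : M 0 0 = Real.exp (D.tw l g) * D.opp l g h * Real.exp (D.tw l h) := by
    rw [hM, D.rho_ea, D.rho_ea, Matrix.mul_diagonal, Matrix.diagonal_mul]
    have e : ∀ g', ∑ j, (D.top l j - D.n l 0 j) * D.mu g' j = D.tw l g' := fun g' =>
      Finset.sum_congr rfl fun j _ => by rw [D.n_zero, Nat.cast_zero, sub_zero]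
    rw [e, e]
    rfl
  rw [D.tw_eq l (g * h), h1]
  have h4 : Real.exp (D.tw l g) * δ * Real.exp (D.tw l h) ≤ ‖M‖ := by
    refine le_trans ?_ h2
    rw [h3, abs_mul, abs_mul, Real.abs_exp, Real.abs_exp]
    gcongr
  have h5 : 0 < Real.exp (D.tw l g) * δ * Real.exp (D.tw l h) := by positivity
  have h6 := Real.log_le_log h5 h4
  rw [Real.log_mul (by positivity) (by positivity), Real.log_mul (by positivity) (by positivity), Real.log_exp, Real.log_exp] at h6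
  linarith

/-- The gaps are additive if the data are opposite for all nodes. -/
theorem add_all {g h : 𝔾} {δ : ℝ} (hδ : 0 < δ) (ho : ∀ l, δ ≤ |D.opp l g h|) (i : ι) :
    |D.mu (g * h) i - (D.mu g i + D.mu h i)| ≤ (∑ l, |D.C i l|) * |Real.log δ| := by
  have h1 : D.mu (g * h) i - (D.mu g i + D.mu h i) = ∑ l, D.C i l * (D.tw l (g * h) - (D.tw l g + D.tw l h)) := by
    rw [D.mu_eq, D.mu_eq g, D.mu_eq h, ← Finset.sum_add_distrib, ← Finset.sum_sub_distrib]
    exact Finset.sum_congr rfl fun l _ => by ring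
  rw [h1, Finset.sum_mul]
  refine (Finset.abs_sum_le_sum_abs _ _).trans (Finset.sum_le_sum fun l _ => ?_)
  rw [abs_mul]
  refine mul_le_mul_of_nonneg_left ?_ (abs_nonneg _)
  have h2 := D.tw_opp hδ (ho l)
  have h3 := D.tw_mul_le l g h
  rw [abs_le]
  have h4 := neg_abs_le (Real.log δ)
  have h5 := abs_nonneg (Real.log δ)
  constructor <;> linarith

/-- The gaps are additive for elements of type `j` with opposite data at the node `j`. -/
theorem add_one (j : ι) {δ R : ℝ} (hδ : 0 < δ) (hR : 0 ≤ R) : ∃ R' : ℝ, 0 ≤ R' ∧ ∀ g h : 𝔾, (∀ i, i ≠ j → D.mu g i ≤ R) →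
    (∀ i, i ≠ j → D.mu h i ≤ R) → δ ≤ |D.opp j g h| → (∀ l, D.tw l g + D.tw l h ≤ D.tw l (g * h) + R') ∧
      ∀ i, |D.mu (g * h) i - (D.mu g i + D.mu h i)| ≤ R' := by
  obtain ⟨u, hu0, huj, hu⟩ := D.C_pos j
  -- the deficit
  obtain ⟨v, hv⟩ : ∃ v : ι → ℝ, v = fun l => ∑ i, u i * D.C i l := ⟨_, rfl⟩
  obtain ⟨ε, hε, hεv⟩ : ∃ ε : ℝ, 0 < ε ∧ ∀ l, l ≠ j → ε ≤ v l := by
    by_cases hne : (Finset.univ.erase j : Finset ι).Nonempty
    · obtain ⟨l0, hl0, hmin⟩ := Finset.exists_min_image _ v hne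
      refine ⟨v l0, ?_, fun l hl => hmin l (Finset.mem_erase.2 ⟨hl, Finset.mem_univ _⟩)⟩
      rw [hv]
      exact hu l0 (Finset.mem_erase.1 hl0).1
    · refine ⟨1, one_pos, fun l hl => absurd (Finset.mem_erase.2 ⟨hl, Finset.mem_univ _⟩) ?_⟩
      rw [Finset.not_nonempty_iff_eq_empty] at hne
      rw [hne]
      exact Finset.notMem_empty l
  have hU : 0 ≤ ∑ i, u i := Finset.sum_nonneg fun i _ => hu0 i
  obtain ⟨T, hT⟩ : ∃ T : ℝ, T = |Real.log δ| + (2 * R * ∑ i, u i + |v j| * |Real.log δ|) / ε := ⟨_, rfl⟩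
  have hT0 : 0 ≤ T := by rw [hT]; positivity
  obtain ⟨R', hR'⟩ : ∃ R' : ℝ, R' = T + ∑ i, (∑ l, |D.C i l|) * T := ⟨_, rfl⟩
  have hS0 : ∀ i, 0 ≤ (∑ l, |D.C i l|) * T := fun i => mul_nonneg (Finset.sum_nonneg fun l _ => abs_nonneg _) hT0
  have hTR : T ≤ R' := by
    rw [hR']
    linarith [Finset.sum_nonneg fun i (_ : i ∈ Finset.univ) => hS0 i]
  refine ⟨R', hT0.trans hTR, fun g h hg hh ho => ?_⟩
  obtain ⟨d, hd⟩ : ∃ d : ι → ℝ, d = fun l => D.tw l g + D.tw l h - D.tw l (g * h) := ⟨_, rfl⟩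
  have hd0 : ∀ l, 0 ≤ d l := fun l => by rw [hd]; linarith [D.tw_mul_le l g h]
  have hdj : d j ≤ |Real.log δ| := by
    have h1 := D.tw_opp hδ ho
    have h2 := neg_abs_le (Real.log δ)
    rw [hd]
    dsimp only
    linarith
  have hCd : ∀ i, ∑ l, D.C i l * d l = D.mu g i + D.mu h i - D.mu (g * h) i := by
    intro i
    rw [D.mu_eq, D.mu_eq h, D.mu_eq (g * h), ← Finset.sum_add_distrib, ← Finset.sum_sub_distrib, hd]
    exact Finset.sum_congr rfl fun l _ => by ring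
  have hsum : ∑ l, v l * d l ≤ 2 * R * ∑ i, u i := by
    have e1 : ∑ l, v l * d l = ∑ i, u i * ∑ l, D.C i l * d l := by
      rw [hv]
      simp only [Finset.sum_mul, Finset.mul_sum]
      rw [Finset.sum_comm]
      exact Finset.sum_congr rfl fun i _ => Finset.sum_congr rfl fun l _ => by ring
    rw [e1, Finset.mul_sum]
    refine Finset.sum_le_sum fun i _ => ?_
    rw [hCd]
    by_cases hi : i = j
    · rw [hi, huj, zero_mul, mul_zero]
    · have h1 := D.mu_nonneg (g * h) i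
      have h2 : D.mu g i + D.mu h i - D.mu (g * h) i ≤ 2 * R := by linarith [hg i hi, hh i hi]
      calc u i * (D.mu g i + D.mu h i - D.mu (g * h) i) ≤ u i * (2 * R) := mul_le_mul_of_nonneg_left h2 (hu0 i)
        _ = 2 * R * u i := by ring
  have hdT : ∀ l, d l ≤ T := by
    intro l
    by_cases hl : l = j
    · rw [hl, hT]
      have : 0 ≤ (2 * R * ∑ i, u i + |v j| * |Real.log δ|) / ε := by positivity
      linarith
    · have h1 : ∑ l ∈ Finset.univ.erase j, v l * d l = ∑ l, v l * d l - v j * d j := by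
        rw [← Finset.sum_erase_add Finset.univ _ (Finset.mem_univ j)]
        ring
      have h2 : ε * d l ≤ ∑ l ∈ Finset.univ.erase j, v l * d l := by
        refine le_trans (mul_le_mul_of_nonneg_right (hεv l hl) (hd0 l)) ?_
        refine Finset.single_le_sum (f := fun l => v l * d l) (fun m hm => ?_) (Finset.mem_erase.2 ⟨hl, Finset.mem_univ _⟩)
        exact mul_nonneg (hε.le.trans (hεv m (Finset.mem_erase.1 hm).1)) (hd0 m)
      have h3 : -(v j * d j) ≤ |v j| * |Real.log δ| := by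
        have h4 : -(v j) * d j ≤ |v j| * d j := mul_le_mul_of_nonneg_right (neg_le_abs _) (hd0 j)
        have h5 : |v j| * d j ≤ |v j| * |Real.log δ| := mul_le_mul_of_nonneg_left hdj (abs_nonneg _)
        linarith
      have h6 : d l ≤ (2 * R * ∑ i, u i + |v j| * |Real.log δ|) / ε := by
        rw [le_div_iff₀ hε]
        linarith
      rw [hT]
      have := abs_nonneg (Real.log δ)
      linarith
  constructor
  · intro l
    have := hdT l
    rw [hd] at this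
    dsimp only at this
    linarith
  · intro i
    have h1 : D.mu (g * h) i - (D.mu g i + D.mu h i) = -∑ l, D.C i l * d l := by rw [hCd]; ring
    rw [h1, abs_neg]
    have h2 : |∑ l, D.C i l * d l| ≤ (∑ l, |D.C i l|) * T := by
      rw [Finset.sum_mul]
      refine (Finset.abs_sum_le_sum_abs _ _).trans (Finset.sum_le_sum fun l _ => ?_)
      rw [abs_mul, abs_of_nonneg (hd0 l)]
      exact mul_le_mul_of_nonneg_left (hdT l) (abs_nonneg _)
    have h3 : (∑ l, |D.C i l|) * T ≤ ∑ i, (∑ l, |D.C i l|) * T :=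
      Finset.single_le_sum (f := fun i => (∑ l, |D.C i l|) * T) (fun i _ => hS0 i) (Finset.mem_univ i)
    rw [hR']
    linarith

/-- The elements with bounded gaps. -/
theorem proper [IsTopologicalGroup 𝔾] (R : ℝ) : ∃ B : Set 𝔾, IsCompact B ∧ ∀ g, (∀ i, D.mu g i ≤ R) → g ∈ B := by
  have h1 : IsCompact (Set.pi Set.univ fun _ : ι => Set.Icc (0 : ℝ) R) := isCompact_univ_pi fun _ => isCompact_Icc
  refine ⟨(D.K : Set 𝔾) * D.ea '' (Set.pi Set.univ fun _ : ι => Set.Icc (0 : ℝ) R) * (D.K : Set 𝔾),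
    (D.cpt.mul (h1.image D.ea_cont)).mul D.cpt, fun g hg => ?_⟩
  refine ⟨D.kL g * D.ea (D.mu g), ⟨D.kL g, D.kL_mem g, D.ea (D.mu g), ⟨D.mu g, fun i _ => ⟨D.mu_nonneg g i, hg i⟩, rfl⟩, rfl⟩,
    D.kR g, D.kR_mem g, (D.kak g).symm⟩

/-- The gaps on a discrete subgroup. -/
noncomputable def gp [IsTopologicalGroup 𝔾] [T2Space 𝔾] (Γ : Subgroup 𝔾) [DiscreteTopology Γ] : Gp Γ ι where
  β γ := D.mu (γ : 𝔾)
  nonneg γ i := D.mu_nonneg _ i
  shift g h := by
    obtain ⟨R, _, hR⟩ := D.mu_shift (B := {((g⁻¹ : Γ) : 𝔾), (h : 𝔾)}) (Set.toFinite _).isCompact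
    exact ⟨R, fun γ i => hR _ (by simp) _ (by simp) (γ : 𝔾) i⟩
  fin R := by
    obtain ⟨B, hB, hBg⟩ := D.proper R
    have hc : IsClosed (Γ : Set 𝔾) := Subgroup.isClosed_of_discrete
    have h1 : IsCompact ((Γ : Set 𝔾) ∩ B) := hB.inter_left hc
    have h2 : ((Γ : Set 𝔾) ∩ B).Finite := by
      have h3 : IsCompact ((Subtype.val : Γ → 𝔾) ⁻¹' B) := hc.isClosedEmbedding_subtypeVal.isCompact_preimage hB
      have h4 := (h3.finite_of_discrete).image (Subtype.val : Γ → 𝔾)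
      refine h4.subset ?_
      rintro x ⟨hx, hxB⟩
      exact ⟨⟨x, hx⟩, hxB, rfl⟩
    refine (h2.preimage (f := (Subtype.val : Γ → 𝔾)) Subtype.val_injective.injOn).subset fun γ hγ => ⟨γ.2, hBg _ hγ⟩

end GD

end Pool.Agent.Helper84.GDL
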