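import Pool.Agent.Helper84.GD.Basic
import Pool.Agent.Helper78.BM.AV

/-!
# Project FQ (MP_0f6f3f_an), layer GD: positions

`D.X j g`, `D.Y j g`: the right and the left datum as columns; `rank_one`: `‖(rho j g)ᵀ - e^{tw} X Yᵀ‖ ≤ e^{tw - mu_j}`. `D.pj j g = X Xᵀ`. `near_left`: `pj (h g)` is close to `pj g`; `near_opp`: `pj (g h)` is close to
`pj h` if the data of `g`, `h` are opposite; `near_right`: `pj (g h)` is a function of `pj g`, up to `O(e^{-mu_j g})`. `D.pd j Γ : PD Γ`: the distance of the projections. `psh`, `plf`: for all `Reg`s on which the gap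
of `j` tends to infinity. `uc_pj`: continuous functions of `pj` are uniformly continuous. `Low`, `Dn`: additional properties of the representations.
-/

set_option autoImplicit false
set_option linter.unusedSectionVars false

open Filter Topology Matrix

namespace Pool.Agent.Helper84.GDL

open scoped Matrix.Norms.L2Operator Pointwise
open Pool.Agent.Helper84.GN Pool.Agent.Helper84.GN.S3 Pool.Agent.Helper78.BM

section Cols

variable {n : Type} [Fintype n] [DecidableEq n]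

theorem norm_transpose (A : Matrix n Unit ℝ) : ‖Aᵀ‖ = ‖A‖ := by
  rw [← conjTranspose_eq_transpose_of_trivial, Matrix.l2_opNorm_conjTranspose]

theorem norm_transpose' {m : Type} [Fintype m] [DecidableEq m] (A : Matrix m n ℝ) : ‖Aᵀ‖ = ‖A‖ := by
  rw [← conjTranspose_eq_transpose_of_trivial, Matrix.l2_opNorm_conjTranspose]

theorem norm_gram (A : Matrix n Unit ℝ) : ‖Aᵀ * A‖ = ‖A‖ * ‖A‖ := by
  rw [← conjTranspose_eq_transpose_of_trivial, Matrix.l2_opNorm_conjTranspose_mul_self]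

theorem unit_eq (B : Matrix Unit Unit ℝ) : B = B () () • (1 : Matrix Unit Unit ℝ) := by
  ext i j
  simp

theorem mul_unit (A : Matrix n Unit ℝ) (B : Matrix Unit Unit ℝ) : A * B = B () () • A := by
  rw [unit_eq B, Matrix.mul_smul, Matrix.mul_one]
  simp

theorem norm_unit (B : Matrix Unit Unit ℝ) : ‖B‖ = |B () ()| := by
  conv_lhs => rw [unit_eq B]
  rw [norm_smul, norm_one, mul_one, Real.norm_eq_abs]

/-- Two unit vectors which are almost proportional have close projections. -/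
theorem proj_near {X X' : Matrix n Unit ℝ} (hX : ‖X‖ = 1) (hX' : ‖X'‖ = 1) {s ε : ℝ} (h : ‖X' - s • X‖ ≤ ε) :
    ‖X' * X'ᵀ - X * Xᵀ‖ ≤ 6 * ε := by
  have hε : 0 ≤ ε := (norm_nonneg _).trans h
  have hXX : ‖X * Xᵀ‖ ≤ 1 := by
    refine (Matrix.l2_opNorm_mul _ _).trans ?_
    rw [norm_transpose, hX, one_mul]
  have hXX' : ‖X' * X'ᵀ‖ ≤ 1 := by
    refine (Matrix.l2_opNorm_mul _ _).trans ?_
    rw [norm_transpose, hX', one_mul]
  rcases le_or_gt 1 ε with h1 | h1
  · refine (norm_sub_le _ _).trans ?_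
    linarith
  have hs1 : |s| ≤ 1 + ε := by
    have h2 : ‖s • X‖ ≤ ‖X'‖ + ‖X' - s • X‖ := by
      have h3 : s • X = X' - (X' - s • X) := by abel
      conv_lhs => rw [h3]
      exact norm_sub_le _ _
    rw [norm_smul, hX, mul_one, Real.norm_eq_abs, hX'] at h2
    linarith
  have hs2 : 1 - ε ≤ |s| := by
    have h2 : ‖X'‖ ≤ ‖s • X‖ + ‖X' - s • X‖ := by
      have h3 : X' = s • X + (X' - s • X) := by abel
      conv_lhs => rw [h3]
      exact norm_add_le _ _
    rw [norm_smul, hX, mul_one, Real.norm_eq_abs, hX'] at h2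
    linarith
  have e : X' * X'ᵀ - X * Xᵀ = (X' - s • X) * X'ᵀ + (s • X) * (X' - s • X)ᵀ + (s ^ 2 - 1) • (X * Xᵀ) := by
    rw [Matrix.sub_mul, Matrix.transpose_sub, Matrix.mul_sub, Matrix.transpose_smul, Matrix.smul_mul, Matrix.smul_mul, Matrix.mul_smul, smul_smul]
    have : (s ^ 2 - 1) • (X * Xᵀ) = (s * s) • (X * Xᵀ) - X * Xᵀ := by
      rw [sub_smul, one_smul, pow_two]
    rw [this]
    abel
  rw [e]
  refine (norm_add_le _ _).trans ((add_le_add (norm_add_le _ _) le_rfl).trans ?_)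
  have a1 : ‖(X' - s • X) * X'ᵀ‖ ≤ ε := by
    refine (Matrix.l2_opNorm_mul _ _).trans ?_
    rw [norm_transpose, hX', mul_one]
    exact h
  have a2 : ‖(s • X) * (X' - s • X)ᵀ‖ ≤ (1 + ε) * ε := by
    refine (Matrix.l2_opNorm_mul _ _).trans ?_
    rw [norm_transpose, norm_smul, hX, mul_one, Real.norm_eq_abs]
    exact mul_le_mul hs1 h (norm_nonneg _) (by linarith)
  have a3 : ‖(s ^ 2 - 1) • (X * Xᵀ)‖ ≤ ε * (2 + ε) := by
    rw [norm_smul, Real.norm_eq_abs]
    have h5 : |s ^ 2 - 1| ≤ ε * (2 + ε) := by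
      have h6 : s ^ 2 - 1 = (|s| - 1) * (|s| + 1) := by
        rw [← sq_abs s]; ring
      rw [h6, abs_mul]
      refine mul_le_mul ?_ ?_ (abs_nonneg _) hε
      · rw [abs_le]; constructor <;> linarith
      · rw [abs_of_nonneg (by positivity)]; linarith
    calc |s ^ 2 - 1| * ‖X * Xᵀ‖ ≤ ε * (2 + ε) * 1 := mul_le_mul h5 hXX (norm_nonneg _) (by positivity)
      _ = ε * (2 + ε) := mul_one _
  nlinarith

/-- The converse. -/
theorem proj_far {X X' : Matrix n Unit ℝ} (hX : ‖X‖ = 1) : ∃ s : ℝ, |s| ≤ ‖X'‖ ∧ ‖X - s • X'‖ ≤ ‖X * Xᵀ - X' * X'ᵀ‖ := by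
  refine ⟨(X'ᵀ * X) () (), ?_, ?_⟩
  · rw [← norm_unit]
    refine (Matrix.l2_opNorm_mul _ _).trans ?_
    rw [norm_transpose, hX, mul_one]
  · have h1 : Xᵀ * X = 1 := by
      have h2 := norm_gram X
      rw [hX, one_mul, norm_unit] at h2
      have h3 : (Xᵀ * X) () () = ∑ i, X i () * X i () := by
        rw [Matrix.mul_apply]; rfl
      have h4 : 0 ≤ (Xᵀ * X) () () := by
        rw [h3]
        exact Finset.sum_nonneg fun i _ => mul_self_nonneg _
      rw [abs_of_nonneg h4] at h2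
      rw [unit_eq (Xᵀ * X), h2, one_smul]
    have e : X - (X'ᵀ * X) () () • X' = (X * Xᵀ - X' * X'ᵀ) * X := by
      rw [Matrix.sub_mul, Matrix.mul_assoc, h1, Matrix.mul_one, Matrix.mul_assoc, mul_unit]
    rw [e]
    refine (Matrix.l2_opNorm_mul _ _).trans ?_
    rw [hX, mul_one]

end Cols

variable {𝔾 : Type} [Group 𝔾] [TopologicalSpace 𝔾] {ι : Type} [Fintype ι] [DecidableEq ι] (D : GD 𝔾 ι)

namespace GD

/-- The base column. -/
def e0 (j : ι) : Matrix (Fin (D.d j + 1)) Unit ℝ := fun i _ => if i = 0 then 1 else 0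

theorem norm_e0 (j : ι) : ‖D.e0 j‖ = 1 := by
  have h1 := norm_gram (D.e0 j)
  rw [norm_unit, Matrix.mul_apply] at h1
  have h2 : ∑ i, (D.e0 j)ᵀ () i * D.e0 j i () = 1 := by
    simp [e0, Matrix.transpose_apply]
  rw [h2, abs_one] at h1
  have h3 := norm_nonneg (D.e0 j)
  nlinarith

/-- The right datum as a column. -/
noncomputable def X (j : ι) (g : 𝔾) : Matrix (Fin (D.d j + 1)) Unit ℝ := (D.rho j (D.kR g))ᵀ * D.e0 j

/-- The left datum as a column. -/
noncomputable def Y (j : ι) (g : 𝔾) : Matrix (Fin (D.d j + 1)) Unit ℝ := D.rho j (D.kL g) * D.e0 j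

theorem X_apply (j : ι) (g : 𝔾) (i : Fin (D.d j + 1)) : D.X j g i () = D.xv j g i := by
  simp [X, Matrix.mul_apply, e0, xv, Matrix.transpose_apply]

theorem Y_apply (j : ι) (g : 𝔾) (i : Fin (D.d j + 1)) : D.Y j g i () = D.yv j g i := by
  simp [Y, Matrix.mul_apply, e0, yv]

theorem orth_T {j : ι} {k : 𝔾} (hk : k ∈ D.K) : D.rho j k * (D.rho j k)ᵀ = 1 := mul_eq_one_comm.1 (D.orth j k hk)

theorem norm_col {j : ι} {k : 𝔾} (hk : k ∈ D.K) (A : Matrix (Fin (D.d j + 1)) Unit ℝ) : ‖D.rho j k * A‖ = ‖A‖ := by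
  have h1 := norm_gram (D.rho j k * A)
  rw [Matrix.transpose_mul, Matrix.mul_assoc, ← Matrix.mul_assoc (D.rho j k)ᵀ, D.orth j k hk, Matrix.one_mul, norm_gram] at h1
  nlinarith [norm_nonneg (D.rho j k * A), norm_nonneg A, sq_nonneg (‖D.rho j k * A‖ - ‖A‖)]

theorem rho_T_K {j : ι} {k : 𝔾} (hk : k ∈ D.K) : (D.rho j k)ᵀ = D.rho j k⁻¹ := by
  have h1 : D.rho j k⁻¹ * D.rho j k = 1 := by rw [← map_mul, inv_mul_cancel, map_one]
  calc (D.rho j k)ᵀ = D.rho j k⁻¹ * D.rho j k * (D.rho j k)ᵀ := by rw [h1, Matrix.one_mul]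
    _ = D.rho j k⁻¹ := by rw [Matrix.mul_assoc, D.orth_T hk, Matrix.mul_one]

theorem norm_X (j : ι) (g : 𝔾) : ‖D.X j g‖ = 1 := by
  unfold X
  rw [D.rho_T_K (D.kR_mem g), D.norm_col (D.K.inv_mem (D.kR_mem g)), norm_e0]

theorem norm_Y (j : ι) (g : 𝔾) : ‖D.Y j g‖ = 1 := by
  unfold Y
  rw [D.norm_col (D.kL_mem g), norm_e0]

/-- The diagonal matrix of the Cartan component. -/
theorem rho_kak (j : ι) (g : 𝔾) : D.rho j g = D.rho j (D.kL g) * D.rho j (D.ea (D.mu g)) * D.rho j (D.kR g) := by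
  conv_lhs => rw [D.kak g, map_mul, map_mul]

/-- The right datum from the left datum. -/
theorem rho_T_Y (j : ι) (g : 𝔾) : (D.rho j g)ᵀ * D.Y j g = Real.exp (D.tw j g) • D.X j g := by
  have h1 : D.rho j (D.ea (D.mu g)) * D.e0 j = Real.exp (D.tw j g) • D.e0 j := by
    rw [D.rho_ea]
    ext i u
    rw [Matrix.diagonal_mul, Matrix.smul_apply, smul_eq_mul]
    unfold e0
    split_ifs with h
    · rw [h, mul_one, mul_one]
      refine congrArg Real.exp (Finset.sum_congr rfl fun j _ => ?_)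
      rw [D.n_zero, Nat.cast_zero, sub_zero]
    · rw [mul_zero, mul_zero]
  have h2 : (D.rho j (D.ea (D.mu g)))ᵀ = D.rho j (D.ea (D.mu g)) := by
    rw [D.rho_ea, Matrix.diagonal_transpose]
  rw [D.rho_kak j g, Matrix.transpose_mul, Matrix.transpose_mul, h2]
  unfold X Y
  calc (D.rho j (D.kR g))ᵀ * (D.rho j (D.ea (D.mu g)) * (D.rho j (D.kL g))ᵀ) * (D.rho j (D.kL g) * D.e0 j)
      = (D.rho j (D.kR g))ᵀ * (D.rho j (D.ea (D.mu g)) * (((D.rho j (D.kL g))ᵀ * D.rho j (D.kL g)) * D.e0 j)) := by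
        simp only [Matrix.mul_assoc]
    _ = _ := by
        rw [D.orth j _ (D.kL_mem g), Matrix.one_mul, h1, Matrix.mul_smul]

/-- The left datum from the right datum. -/
theorem rho_X (j : ι) (g : 𝔾) : D.rho j g * D.X j g = Real.exp (D.tw j g) • D.Y j g := by
  have h1 : D.rho j (D.ea (D.mu g)) * D.e0 j = Real.exp (D.tw j g) • D.e0 j := by
    rw [D.rho_ea]
    ext i u
    rw [Matrix.diagonal_mul, Matrix.smul_apply, smul_eq_mul]
    unfold e0
    split_ifs with h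
    · rw [h, mul_one, mul_one]
      refine congrArg Real.exp (Finset.sum_congr rfl fun j _ => ?_)
      rw [D.n_zero, Nat.cast_zero, sub_zero]
    · rw [mul_zero, mul_zero]
  rw [D.rho_kak j g]
  unfold X Y
  calc D.rho j (D.kL g) * D.rho j (D.ea (D.mu g)) * D.rho j (D.kR g) * ((D.rho j (D.kR g))ᵀ * D.e0 j)
      = D.rho j (D.kL g) * (D.rho j (D.ea (D.mu g)) * ((D.rho j (D.kR g) * (D.rho j (D.kR g))ᵀ) * D.e0 j)) := by
        simp only [Matrix.mul_assoc]
    _ = _ := by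
        rw [D.orth_T (D.kR_mem g), Matrix.one_mul, h1, Matrix.mul_smul]

/-- The rank one approximation. -/
theorem rank_one (j : ι) (g : 𝔾) : ‖D.rho j g - Real.exp (D.tw j g) • (D.Y j g * (D.X j g)ᵀ)‖ ≤ Real.exp (D.tw j g - D.mu g j) := by
  have h1 : D.rho j g - Real.exp (D.tw j g) • (D.Y j g * (D.X j g)ᵀ) =
      D.rho j (D.kL g) * (D.rho j (D.ea (D.mu g)) - Real.exp (D.tw j g) • (D.e0 j * (D.e0 j)ᵀ)) * D.rho j (D.kR g) := by
    rw [D.rho_kak j g]
    unfold X Y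
    rw [Matrix.transpose_mul, Matrix.transpose_transpose, Matrix.mul_sub, Matrix.sub_mul, Matrix.mul_smul, Matrix.smul_mul]
    simp only [Matrix.mul_assoc]
  rw [h1, D.norm_mul_orth (D.kR_mem g), D.norm_orth_mul (D.kL_mem g)]
  have h2 : D.rho j (D.ea (D.mu g)) - Real.exp (D.tw j g) • (D.e0 j * (D.e0 j)ᵀ) =
      diagonal fun i => if i = 0 then 0 else Real.exp (∑ l, (D.top j l - D.n j i l) * D.mu g l) := by
    rw [D.rho_ea]
    ext i i'
    rw [Matrix.sub_apply, Matrix.smul_apply, Matrix.mul_apply, Matrix.diagonal_apply, Matrix.diagonal_apply]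
    simp only [Finset.univ_unique, Finset.sum_singleton, Matrix.transpose_apply, e0, smul_eq_mul]
    by_cases h : i = i'
    · subst h
      by_cases h0 : i = 0
      · subst h0
        simp only [if_true, mul_one]
        have e : ∑ l, (D.top j l - D.n j 0 l) * D.mu g l = D.tw j g :=
          Finset.sum_congr rfl fun j _ => by rw [D.n_zero, Nat.cast_zero, sub_zero]
        rw [e, sub_self]
      · simp [h0]
    · rw [if_neg h, if_neg h]
      by_cases h0 : i = 0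
      · subst h0
        have h0' : i' ≠ 0 := fun h2 => h h2.symm
        simp [h0']
      · simp [h0]
  rw [h2, Matrix.l2_opNorm_diagonal, pi_norm_le_iff_of_nonneg (Real.exp_pos _).le]
  intro i
  split_ifs with h0
  · rw [norm_zero]
    exact (Real.exp_pos _).le
  · rw [Real.norm_eq_abs, Real.abs_exp]
    refine Real.exp_le_exp.2 ?_
    have h3 : ∑ l, (D.top j l - D.n j i l) * D.mu g l = D.tw j g - ∑ l, (D.n j i l : ℝ) * D.mu g l := by
      unfold tw
      rw [← Finset.sum_sub_distrib]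
      exact Finset.sum_congr rfl fun l _ => by ring
    rw [h3]
    have h4 : D.mu g j ≤ ∑ l, (D.n j i l : ℝ) * D.mu g l := by
      refine le_trans ?_ (Finset.single_le_sum (f := fun l => (D.n j i l : ℝ) * D.mu g l)
        (fun l _ => mul_nonneg (Nat.cast_nonneg _) (D.mu_nonneg g l)) (Finset.mem_univ j))
      have h5 : (1 : ℝ) ≤ D.n j i j := by exact_mod_cast D.n_pos j i h0
      have h6 := D.mu_nonneg g j
      nlinarith
    linarith

theorem rank_one_T (j : ι) (g : 𝔾) :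
    ‖(D.rho j g)ᵀ - Real.exp (D.tw j g) • (D.X j g * (D.Y j g)ᵀ)‖ ≤ Real.exp (D.tw j g - D.mu g j) := by
  refine le_trans (le_of_eq ?_) (D.rank_one j g)
  rw [← norm_transpose' (D.rho j g - Real.exp (D.tw j g) • (D.Y j g * (D.X j g)ᵀ)), Matrix.transpose_sub, Matrix.transpose_smul,
    Matrix.transpose_mul, Matrix.transpose_transpose]

/-- The projection on the line of the right datum. -/
noncomputable def pj (j : ι) (g : 𝔾) : Matrix (Fin (D.d j + 1)) (Fin (D.d j + 1)) ℝ := D.X j g * (D.X j g)ᵀ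

/-- The projection on the line of the left datum. -/
noncomputable def qj (j : ι) (g : 𝔾) : Matrix (Fin (D.d j + 1)) (Fin (D.d j + 1)) ℝ := D.Y j g * (D.Y j g)ᵀ

theorem pj_eq (j : ι) (g : 𝔾) : D.pj j g = vecMulVec (D.xv j g) (D.xv j g) := by
  ext i i'
  simp [pj, Matrix.mul_apply, Matrix.transpose_apply, X_apply, vecMulVec_apply]

theorem qj_eq (j : ι) (g : 𝔾) : D.qj j g = vecMulVec (D.yv j g) (D.yv j g) := by
  ext i i'
  simp [qj, Matrix.mul_apply, Matrix.transpose_apply, Y_apply, vecMulVec_apply]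

theorem norm_pj_le (j : ι) (g : 𝔾) : ‖D.pj j g‖ ≤ 1 := by
  refine (Matrix.l2_opNorm_mul _ _).trans ?_
  rw [norm_transpose, norm_X, one_mul]

theorem norm_qj_le (j : ι) (g : 𝔾) : ‖D.qj j g‖ ≤ 1 := by
  refine (Matrix.l2_opNorm_mul _ _).trans ?_
  rw [norm_transpose, norm_Y, one_mul]

/-- The right datum of a product. -/
theorem X_mul (j : ι) (g h : 𝔾) : D.X j (g * h) = Real.exp (-D.tw j (g * h)) • ((D.rho j h)ᵀ * ((D.rho j g)ᵀ * D.Y j (g * h))) := by
  have h1 := D.rho_T_Y j (g * h)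
  rw [map_mul, Matrix.transpose_mul, Matrix.mul_assoc] at h1
  rw [h1, smul_smul, ← Real.exp_add, neg_add_cancel, Real.exp_zero, one_smul]

/-- The left datum of a product. -/
theorem Y_mul (j : ι) (g h : 𝔾) : D.Y j (g * h) = Real.exp (-D.tw j (g * h)) • (D.rho j g * (D.rho j h * D.X j (g * h))) := by
  have h1 := D.rho_X j (g * h)
  rw [map_mul, Matrix.mul_assoc] at h1
  rw [h1, smul_smul, ← Real.exp_add, neg_add_cancel, Real.exp_zero, one_smul]

theorem norm_rho_col (j : ι) (g : 𝔾) (A : Matrix (Fin (D.d j + 1)) Unit ℝ) : ‖D.rho j g * A‖ ≤ Real.exp (D.tw j g) * ‖A‖ := by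
  refine (Matrix.l2_opNorm_mul _ _).trans ?_
  rw [norm_rho]

theorem norm_rho_T_col (j : ι) (g : 𝔾) (A : Matrix (Fin (D.d j + 1)) Unit ℝ) : ‖(D.rho j g)ᵀ * A‖ ≤ Real.exp (D.tw j g) * ‖A‖ := by
  refine (Matrix.l2_opNorm_mul _ _).trans ?_
  rw [norm_transpose', norm_rho]

/-- `ρ(h)ᵀ A` is almost proportional to the right datum of `h`. -/
theorem rho_T_near (j : ι) (h : 𝔾) (A : Matrix (Fin (D.d j + 1)) Unit ℝ) :
    ∃ s : ℝ, |s| ≤ Real.exp (D.tw j h) * ‖A‖ ∧ ‖(D.rho j h)ᵀ * A - s • D.X j h‖ ≤ Real.exp (D.tw j h - D.mu h j) * ‖A‖ := by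
  refine ⟨Real.exp (D.tw j h) * ((D.Y j h)ᵀ * A) () (), ?_, ?_⟩
  · rw [abs_mul, Real.abs_exp]
    refine mul_le_mul_of_nonneg_left ?_ (Real.exp_pos _).le
    rw [← norm_unit]
    refine (Matrix.l2_opNorm_mul _ _).trans ?_
    rw [norm_transpose, norm_Y, one_mul]
  · have e : (D.rho j h)ᵀ * A - (Real.exp (D.tw j h) * ((D.Y j h)ᵀ * A) () ()) • D.X j h =
        ((D.rho j h)ᵀ - Real.exp (D.tw j h) • (D.X j h * (D.Y j h)ᵀ)) * A := by
      rw [Matrix.sub_mul, Matrix.smul_mul, Matrix.mul_assoc, mul_unit, smul_smul]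
    rw [e]
    exact (Matrix.l2_opNorm_mul _ _).trans (mul_le_mul_of_nonneg_right (D.rank_one_T j h) (norm_nonneg _))

theorem rho_near (j : ι) (h : 𝔾) (A : Matrix (Fin (D.d j + 1)) Unit ℝ) :
    ∃ s : ℝ, |s| ≤ Real.exp (D.tw j h) * ‖A‖ ∧ ‖D.rho j h * A - s • D.Y j h‖ ≤ Real.exp (D.tw j h - D.mu h j) * ‖A‖ := by
  refine ⟨Real.exp (D.tw j h) * ((D.X j h)ᵀ * A) () (), ?_, ?_⟩
  · rw [abs_mul, Real.abs_exp]
    refine mul_le_mul_of_nonneg_left ?_ (Real.exp_pos _).le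
    rw [← norm_unit]
    refine (Matrix.l2_opNorm_mul _ _).trans ?_
    rw [norm_transpose, norm_X, one_mul]
  · have e : D.rho j h * A - (Real.exp (D.tw j h) * ((D.X j h)ᵀ * A) () ()) • D.Y j h =
        (D.rho j h - Real.exp (D.tw j h) • (D.Y j h * (D.X j h)ᵀ)) * A := by
      rw [Matrix.sub_mul, Matrix.smul_mul, Matrix.mul_assoc, mul_unit, smul_smul]
    rw [e]
    exact (Matrix.l2_opNorm_mul _ _).trans (mul_le_mul_of_nonneg_right (D.rank_one j h) (norm_nonneg _))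

/-- The right datum of `g * h` is almost proportional to the one of `h`. -/
theorem X_near (j : ι) (g h : 𝔾) : ∃ s : ℝ, ‖D.X j (g * h) - s • D.X j h‖ ≤ Real.exp (D.tw j g + D.tw j h - D.tw j (g * h) - D.mu h j) := by
  obtain ⟨s, -, hs⟩ := D.rho_T_near j h ((D.rho j g)ᵀ * D.Y j (g * h))
  refine ⟨Real.exp (-D.tw j (g * h)) * s, ?_⟩
  rw [D.X_mul, mul_smul, ← smul_sub, norm_smul, Real.norm_eq_abs, Real.abs_exp]
  have h1 := D.norm_rho_T_col j g (D.Y j (g * h))
  rw [norm_Y, mul_one] at h1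
  calc Real.exp (-D.tw j (g * h)) * ‖(D.rho j h)ᵀ * ((D.rho j g)ᵀ * D.Y j (g * h)) - s • D.X j h‖
      ≤ Real.exp (-D.tw j (g * h)) * (Real.exp (D.tw j h - D.mu h j) * Real.exp (D.tw j g)) :=
        mul_le_mul_of_nonneg_left (hs.trans (mul_le_mul_of_nonneg_left h1 (Real.exp_pos _).le)) (Real.exp_pos _).le
    _ = Real.exp (D.tw j g + D.tw j h - D.tw j (g * h) - D.mu h j) := by
        rw [← Real.exp_add, ← Real.exp_add]
        congr 1
        ring

/-- The left datum of `g * h` is almost proportional to the one of `g`. -/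
theorem Y_near (j : ι) (g h : 𝔾) : ∃ s : ℝ, ‖D.Y j (g * h) - s • D.Y j g‖ ≤ Real.exp (D.tw j g + D.tw j h - D.tw j (g * h) - D.mu g j) := by
  obtain ⟨s, -, hs⟩ := D.rho_near j g (D.rho j h * D.X j (g * h))
  refine ⟨Real.exp (-D.tw j (g * h)) * s, ?_⟩
  rw [D.Y_mul, mul_smul, ← smul_sub, norm_smul, Real.norm_eq_abs, Real.abs_exp]
  have h1 := D.norm_rho_col j h (D.X j (g * h))
  rw [norm_X, mul_one] at h1
  calc Real.exp (-D.tw j (g * h)) * ‖D.rho j g * (D.rho j h * D.X j (g * h)) - s • D.Y j g‖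
      ≤ Real.exp (-D.tw j (g * h)) * (Real.exp (D.tw j g - D.mu g j) * Real.exp (D.tw j h)) :=
        mul_le_mul_of_nonneg_left (hs.trans (mul_le_mul_of_nonneg_left h1 (Real.exp_pos _).le)) (Real.exp_pos _).le
    _ = Real.exp (D.tw j g + D.tw j h - D.tw j (g * h) - D.mu g j) := by
        rw [← Real.exp_add, ← Real.exp_add]
        congr 1
        ring

theorem pj_near (j : ι) (g h : 𝔾) :
    ‖D.pj j (g * h) - D.pj j h‖ ≤ 6 * Real.exp (D.tw j g + D.tw j h - D.tw j (g * h) - D.mu h j) := by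
  obtain ⟨s, hs⟩ := D.X_near j g h
  exact proj_near (D.norm_X j h) (D.norm_X j (g * h)) hs

theorem qj_near (j : ι) (g h : 𝔾) :
    ‖D.qj j (g * h) - D.qj j g‖ ≤ 6 * Real.exp (D.tw j g + D.tw j h - D.tw j (g * h) - D.mu g j) := by
  obtain ⟨s, hs⟩ := D.Y_near j g h
  exact proj_near (D.norm_Y j g) (D.norm_Y j (g * h)) hs

/-- Left translations do not move the positions at infinity. -/
theorem near_left (j : ι) (h g : 𝔾) : ‖D.pj j (h * g) - D.pj j g‖ ≤ 6 * Real.exp (D.tw j h + D.tw j h⁻¹ - D.mu g j) := by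
  refine (D.pj_near j h g).trans ?_
  have h1 := D.tw_mul_le j h⁻¹ (h * g)
  rw [inv_mul_cancel_left] at h1
  refine mul_le_mul_of_nonneg_left (Real.exp_le_exp.2 ?_) (by norm_num)
  linarith

/-- Right translations do not move the left positions at infinity. -/
theorem near_left' (j : ι) (g h : 𝔾) : ‖D.qj j (g * h) - D.qj j g‖ ≤ 6 * Real.exp (D.tw j h + D.tw j h⁻¹ - D.mu g j) := by
  refine (D.qj_near j g h).trans ?_
  have h1 := D.tw_mul_le j (g * h) h⁻¹
  rw [mul_inv_cancel_right] at h1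
  refine mul_le_mul_of_nonneg_left (Real.exp_le_exp.2 ?_) (by norm_num)
  linarith

/-- Products with opposite data have the position of the second factor. -/
theorem near_opp (j : ι) {g h : 𝔾} {δ : ℝ} (hδ : 0 < δ) (ho : δ ≤ |D.opp j g h|) :
    ‖D.pj j (g * h) - D.pj j h‖ ≤ 6 * (δ⁻¹ * Real.exp (-D.mu h j)) := by
  refine (D.pj_near j g h).trans ?_
  have h1 := D.tw_opp hδ ho
  refine mul_le_mul_of_nonneg_left ?_ (by norm_num)
  calc Real.exp (D.tw j g + D.tw j h - D.tw j (g * h) - D.mu h j) ≤ Real.exp (-Real.log δ + -D.mu h j) :=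
        Real.exp_le_exp.2 (by linarith)
    _ = δ⁻¹ * Real.exp (-D.mu h j) := by rw [Real.exp_add, Real.exp_neg, Real.exp_log hδ]

/-- Products with opposite data have the left position of the first factor. -/
theorem near_opp' (j : ι) {g h : 𝔾} {δ : ℝ} (hδ : 0 < δ) (ho : δ ≤ |D.opp j g h|) :
    ‖D.qj j (g * h) - D.qj j g‖ ≤ 6 * (δ⁻¹ * Real.exp (-D.mu g j)) := by
  refine (D.qj_near j g h).trans ?_
  have h1 := D.tw_opp hδ ho
  refine mul_le_mul_of_nonneg_left ?_ (by norm_num)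
  calc Real.exp (D.tw j g + D.tw j h - D.tw j (g * h) - D.mu g j) ≤ Real.exp (-Real.log δ + -D.mu g j) :=
        Real.exp_le_exp.2 (by linarith)
    _ = δ⁻¹ * Real.exp (-D.mu g j) := by rw [Real.exp_add, Real.exp_neg, Real.exp_log hδ]

/-- The right datum of `g * h` as a function of the one of `g`. -/
theorem X_right (j : ι) (g h : 𝔾) : ∃ s : ℝ, |s| ≤ Real.exp (D.tw j h⁻¹) ∧
    ‖D.X j (g * h) - s • ((D.rho j h)ᵀ * D.X j g)‖ ≤ Real.exp (D.tw j h + D.tw j h⁻¹ - D.mu g j) := by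
  obtain ⟨s, hs0, hs⟩ := D.rho_T_near j g (D.Y j (g * h))
  rw [norm_Y, mul_one] at hs0 hs
  have h1 := D.tw_mul_le j (g * h) h⁻¹
  rw [mul_inv_cancel_right] at h1
  refine ⟨Real.exp (-D.tw j (g * h)) * s, ?_, ?_⟩
  · rw [abs_mul, Real.abs_exp]
    refine (mul_le_mul_of_nonneg_left hs0 (Real.exp_pos _).le).trans ?_
    rw [← Real.exp_add]
    exact Real.exp_le_exp.2 (by linarith)
  · rw [D.X_mul, mul_smul, ← smul_sub, norm_smul, Real.norm_eq_abs, Real.abs_exp, ← Matrix.mul_smul, ← Matrix.mul_sub]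
    calc Real.exp (-D.tw j (g * h)) * ‖(D.rho j h)ᵀ * ((D.rho j g)ᵀ * D.Y j (g * h) - s • D.X j g)‖
        ≤ Real.exp (-D.tw j (g * h)) * (Real.exp (D.tw j h) * Real.exp (D.tw j g - D.mu g j)) :=
          mul_le_mul_of_nonneg_left ((D.norm_rho_T_col j h _).trans (mul_le_mul_of_nonneg_left hs (Real.exp_pos _).le))
            (Real.exp_pos _).le
      _ = Real.exp (D.tw j h + (D.tw j g - D.tw j (g * h)) - D.mu g j) := by
          rw [← Real.exp_add, ← Real.exp_add]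
          congr 1
          ring
      _ ≤ _ := Real.exp_le_exp.2 (by linarith)

/-- The left datum of `h * g` as a function of the one of `g`. -/
theorem Y_left (j : ι) (h g : 𝔾) : ∃ s : ℝ, |s| ≤ Real.exp (D.tw j h⁻¹) ∧
    ‖D.Y j (h * g) - s • (D.rho j h * D.Y j g)‖ ≤ Real.exp (D.tw j h + D.tw j h⁻¹ - D.mu g j) := by
  obtain ⟨s, hs0, hs⟩ := D.rho_near j g (D.X j (h * g))
  rw [norm_X, mul_one] at hs0 hs
  have h1 := D.tw_mul_le j h⁻¹ (h * g)
  rw [inv_mul_cancel_left] at h1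
  refine ⟨Real.exp (-D.tw j (h * g)) * s, ?_, ?_⟩
  · rw [abs_mul, Real.abs_exp]
    refine (mul_le_mul_of_nonneg_left hs0 (Real.exp_pos _).le).trans ?_
    rw [← Real.exp_add]
    exact Real.exp_le_exp.2 (by linarith)
  · rw [D.Y_mul, mul_smul, ← smul_sub, norm_smul, Real.norm_eq_abs, Real.abs_exp, ← Matrix.mul_smul, ← Matrix.mul_sub]
    calc Real.exp (-D.tw j (h * g)) * ‖D.rho j h * (D.rho j g * D.X j (h * g) - s • D.Y j g)‖
        ≤ Real.exp (-D.tw j (h * g)) * (Real.exp (D.tw j h) * Real.exp (D.tw j g - D.mu g j)) :=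
          mul_le_mul_of_nonneg_left ((D.norm_rho_col j h _).trans (mul_le_mul_of_nonneg_left hs (Real.exp_pos _).le))
            (Real.exp_pos _).le
      _ = Real.exp (D.tw j h + (D.tw j g - D.tw j (h * g)) - D.mu g j) := by
          rw [← Real.exp_add, ← Real.exp_add]
          congr 1
          ring
      _ ≤ _ := Real.exp_le_exp.2 (by linarith)

/-- Right translations are uniformly continuous at infinity. -/
theorem near_right (j : ι) (h : 𝔾) {ε : ℝ} (hε : 0 < ε) : ∃ δ : ℝ, 0 < δ ∧ ∃ L : ℝ, ∀ g g' : 𝔾, L ≤ D.mu g j → L ≤ D.mu g' j →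
    ‖D.pj j g - D.pj j g'‖ < δ → ‖D.pj j (g * h) - D.pj j (g' * h)‖ < ε := by
  obtain ⟨a, ha⟩ : ∃ a : ℝ, a = Real.exp (D.tw j h) := ⟨_, rfl⟩
  obtain ⟨c, hc⟩ : ∃ c : ℝ, c = Real.exp (D.tw j h⁻¹) := ⟨_, rfl⟩
  have ha0 : 0 < a := by rw [ha]; exact Real.exp_pos _
  have hc0 : 0 < c := by rw [hc]; exact Real.exp_pos _
  -- error
  obtain ⟨η, hη0, hη⟩ : ∃ η : ℝ, 0 < η ∧ η ≤ 1 / 2 ∧ 6 * (η + c * a * η + c * (2 * a) * η) < ε := by
    refine ⟨min (1 / 2) (ε / (12 * (1 + c * a + c * (2 * a)))), lt_min (by norm_num) (by positivity), min_le_left _ _, ?_⟩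
    have h1 := min_le_right (1 / 2 : ℝ) (ε / (12 * (1 + c * a + c * (2 * a))))
    have h2 : 0 < 1 + c * a + c * (2 * a) := by positivity
    rw [le_div_iff₀ (by positivity)] at h1
    nlinarith
  obtain ⟨L, hL⟩ : ∃ L : ℝ, ∀ g : 𝔾, L ≤ D.mu g j → Real.exp (D.tw j h + D.tw j h⁻¹ - D.mu g j) ≤ η := by
    refine ⟨D.tw j h + D.tw j h⁻¹ - Real.log η, fun g hg => ?_⟩
    calc Real.exp (D.tw j h + D.tw j h⁻¹ - D.mu g j) ≤ Real.exp (Real.log η) := Real.exp_le_exp.2 (by linarith)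
      _ = η := Real.exp_log hη0
  refine ⟨η, hη0, L, fun g g' hg hg' hd => ?_⟩
  obtain ⟨s1, hs1, e1⟩ := D.X_right j g h
  obtain ⟨s2, hs2, e2⟩ := D.X_right j g' h
  obtain ⟨s, hs, e3⟩ := proj_far (X := D.X j g) (X' := D.X j g') (D.norm_X j g)
  rw [norm_X] at hs
  replace e1 := e1.trans (hL g hg)
  replace e2 := e2.trans (hL g' hg')
  rw [← hc] at hs1 hs2
  -- lower bound of `s2`
  have h2 : 1 ≤ 2 * a * |s2| := by
    have h3 : ‖D.X j (g' * h)‖ ≤ ‖s2 • ((D.rho j h)ᵀ * D.X j g')‖ + ‖D.X j (g' * h) - s2 • ((D.rho j h)ᵀ * D.X j g')‖ := by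
      have h4 : D.X j (g' * h) = s2 • ((D.rho j h)ᵀ * D.X j g') + (D.X j (g' * h) - s2 • ((D.rho j h)ᵀ * D.X j g')) := by abel
      conv_lhs => rw [h4]
      exact norm_add_le _ _
    rw [norm_X, norm_smul, Real.norm_eq_abs] at h3
    have h5 := D.norm_rho_T_col j h (D.X j g')
    rw [norm_X, mul_one, ← ha] at h5
    have h6 := mul_le_mul_of_nonneg_left h5 (abs_nonneg s2)
    nlinarith [hη.1]
  have hs20 : s2 ≠ 0 := by
    intro h0
    rw [h0, abs_zero, mul_zero] at h2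
    linarith
  have hs2' : 0 < |s2| := abs_pos.2 hs20
  have key : ‖D.X j (g * h) - (s1 * s / s2) • D.X j (g' * h)‖ ≤ η + c * a * η + c * (2 * a) * η := by
    have e : D.X j (g * h) - (s1 * s / s2) • D.X j (g' * h) =
        (D.X j (g * h) - s1 • ((D.rho j h)ᵀ * D.X j g)) + s1 • ((D.rho j h)ᵀ * (D.X j g - s • D.X j g')) -
          (s1 * s / s2) • (D.X j (g' * h) - s2 • ((D.rho j h)ᵀ * D.X j g')) := by
      rw [Matrix.mul_sub, Matrix.mul_smul, smul_sub, smul_sub, smul_smul, smul_smul, div_mul_cancel₀ _ hs20]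
      abel
    rw [e]
    refine (norm_sub_le _ _).trans (add_le_add ((norm_add_le _ _).trans (add_le_add e1 ?_)) ?_)
    · rw [norm_smul, Real.norm_eq_abs]
      have h5 := D.norm_rho_T_col j h (D.X j g - s • D.X j g')
      rw [← ha] at h5
      calc |s1| * ‖(D.rho j h)ᵀ * (D.X j g - s • D.X j g')‖ ≤ c * (a * η) :=
            mul_le_mul hs1 (h5.trans (mul_le_mul_of_nonneg_left (e3.trans hd.le) ha0.le)) (norm_nonneg _) hc0.le
        _ = c * a * η := by ring
    · rw [norm_smul, Real.norm_eq_abs, abs_div, abs_mul]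
      have h7 : |s1| * |s| / |s2| ≤ c * (2 * a) := by
        rw [div_le_iff₀ hs2']
        calc |s1| * |s| ≤ c * 1 := mul_le_mul hs1 hs (abs_nonneg _) hc0.le
          _ ≤ c * (2 * a * |s2|) := mul_le_mul_of_nonneg_left h2 hc0.le
          _ = c * (2 * a) * |s2| := by ring
      exact mul_le_mul h7 e2 (norm_nonneg _) (by positivity)
  have h8 := proj_near (D.norm_X j (g' * h)) (D.norm_X j (g * h)) key
  exact lt_of_le_of_lt h8 hη.2

/-- The distance of the positions of node `j`, for any map to the group. -/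
noncomputable def pdOf (j : ι) {G : Type} (f : G → 𝔾) : PD G where
  d γ γ' := ‖D.pj j (f γ) - D.pj j (f γ')‖
  self γ := by rw [sub_self, norm_zero]
  symm γ γ' := norm_sub_rev _ _
  tri γ γ' γ'' := norm_sub_le_norm_sub_add_norm_sub _ _ _
  tb δ hδ := by
    have h1 : IsCompact (Metric.closedBall (0 : Matrix (Fin (D.d j + 1)) (Fin (D.d j + 1)) ℝ) 1) :=
      isCompact_closedBall _ _
    have h2 : TotallyBounded (Set.range fun γ : G => D.pj j (f γ)) := by
      refine h1.totallyBounded.subset ?_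
      rintro _ ⟨γ, rfl⟩
      rw [mem_closedBall_zero_iff]
      exact D.norm_pj_le j _
    obtain ⟨t, hts, htf, htc⟩ := Metric.finite_approx_of_totallyBounded h2 δ hδ
    obtain ⟨F, hF⟩ : ∃ F : Finset G, ∀ y ∈ t, ∃ γ' ∈ F, D.pj j (f γ') = y := by
      classical
      choose u hu using fun y : t => hts y.2
      haveI := htf.fintype
      refine ⟨Finset.univ.image u, fun y hy => ⟨u ⟨y, hy⟩, ?_, hu ⟨y, hy⟩⟩⟩
      exact Finset.mem_image_of_mem u (Finset.mem_univ _)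
    refine ⟨F, fun γ => ?_⟩
    have h3 := htc (Set.mem_range_self γ)
    rw [Set.mem_iUnion₂] at h3
    obtain ⟨y, hy, hy'⟩ := h3
    obtain ⟨γ', hγ', rfl⟩ := hF y hy
    refine ⟨γ', hγ', ?_⟩
    rwa [Metric.mem_ball, dist_eq_norm] at hy'

/-- The distance of the positions of node `j` on a subgroup. -/
noncomputable def pd (j : ι) (Γ : Subgroup 𝔾) : PD Γ := D.pdOf j (Subtype.val : Γ → 𝔾)

theorem pdOf_d (j : ι) {G : Type} (f : G → 𝔾) (γ γ' : G) : (D.pdOf j f).d γ γ' = ‖D.pj j (f γ) - D.pj j (f γ')‖ := rfl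

theorem pd_d (j : ι) (Γ : Subgroup 𝔾) (γ γ' : Γ) : (D.pd j Γ).d γ γ' = ‖D.pj j (γ : 𝔾) - D.pj j (γ' : 𝔾)‖ := rfl

/-- Continuous functions of the positions are uniformly continuous. -/
theorem uc_pj (j : ι) {G : Type} (f : G → 𝔾) {φ : Matrix (Fin (D.d j + 1)) (Fin (D.d j + 1)) ℝ → ℂ} (hφ : Continuous φ) :
    UC (D.pdOf j f) fun γ => φ (D.pj j (f γ)) := by
  have h1 : IsCompact (Metric.closedBall (0 : Matrix (Fin (D.d j + 1)) (Fin (D.d j + 1)) ℝ) 1) :=
    isCompact_closedBall _ _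
  have h2 := h1.uniformContinuousOn_of_continuous hφ.continuousOn
  rw [Metric.uniformContinuousOn_iff] at h2
  intro ε hε
  obtain ⟨δ, hδ, h3⟩ := h2 ε hε
  refine ⟨δ, hδ, fun γ γ' h => ?_⟩
  have h4 := h3 (D.pj j (f γ)) (mem_closedBall_zero_iff.2 (D.norm_pj_le j _)) (D.pj j (f γ')) (mem_closedBall_zero_iff.2 (D.norm_pj_le j _))
    (by rw [dist_eq_norm]; exact h)
  rw [dist_eq_norm] at h4
  exact h4.le

/-- Right translations are uniformly continuous at infinity. -/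
theorem psh_of (j : ι) {G : Type} [Group G] (f : G →* 𝔾) (R : Reg G) (hR : ∀ n, Tendsto (fun γ => D.mu (f γ) j) (R.F n) atTop) :
    PSh R (D.pdOf j f) := by
  intro h ε hε
  obtain ⟨δ, hδ, L, hL⟩ := D.near_right j (f h) hε
  refine ⟨δ, hδ, fun n => ⟨{γ | L ≤ D.mu (f γ) j}, (hR n).eventually_ge_atTop L, fun γ hγ γ' hγ' hd => ?_⟩⟩
  rw [pdOf_d, map_mul, map_mul]
  exact hL _ _ hγ hγ' hd

/-- Left translations do not move the positions at infinity. -/
theorem plf_of (j : ι) {G : Type} [Group G] (f : G →* 𝔾) (R : Reg G) (hR : ∀ n, Tendsto (fun γ => D.mu (f γ) j) (R.F n) atTop) :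
    PLf R (D.pdOf j f) := by
  intro h n
  have h1 : Tendsto (fun γ => 6 * Real.exp (D.tw j (f h⁻¹) + D.tw j (f h⁻¹)⁻¹ - D.mu (f γ) j)) (R.F n) (𝓝 0) := by
    rw [show (0 : ℝ) = 6 * 0 by ring]
    refine Tendsto.const_mul 6 (Real.tendsto_exp_atBot.comp ?_)
    exact tendsto_atBot_add_const_left _ _ (tendsto_neg_atTop_atBot.comp (hR n))
  refine squeeze_zero (fun γ => d_nonneg _ _ _) (fun γ => ?_) h1
  rw [(D.pdOf j f).symm, pdOf_d, map_mul]
  exact D.near_left j (f h⁻¹) (f γ)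

theorem psh (j : ι) (Γ : Subgroup 𝔾) (R : Reg Γ) (hR : ∀ n, Tendsto (fun γ : Γ => D.mu (γ : 𝔾) j) (R.F n) atTop) : PSh R (D.pd j Γ) :=
  D.psh_of j Γ.subtype R hR

theorem plf (j : ι) (Γ : Subgroup 𝔾) (R : Reg Γ) (hR : ∀ n, Tendsto (fun γ : Γ => D.mu (γ : 𝔾) j) (R.F n) atTop) : PLf R (D.pd j Γ) :=
  D.plf_of j Γ.subtype R hR

/-- Products with opposite data: the form for helper45's `hgeo`. -/
theorem hgeo (j : ι) {δ η : ℝ} (hδ : 0 < δ) (hη : 0 < η) : ∃ L : ℝ, ∀ g h : 𝔾, L ≤ D.mu h j → δ ≤ |D.opp j g h| →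
    ‖D.pj j (g * h) - D.pj j h‖ < η := by
  refine ⟨-Real.log (η * δ / 12), fun g h hL ho => lt_of_le_of_lt (D.near_opp j hδ ho) ?_⟩
  have h1 : Real.exp (-D.mu h j) ≤ η * δ / 12 := by
    calc Real.exp (-D.mu h j) ≤ Real.exp (Real.log (η * δ / 12)) := Real.exp_le_exp.2 (by linarith)
      _ = η * δ / 12 := Real.exp_log (by positivity)
  calc 6 * (δ⁻¹ * Real.exp (-D.mu h j)) ≤ 6 * (δ⁻¹ * (η * δ / 12)) := by gcongr
    _ = η / 2 := by field_simp; ring
    _ < η := by linarith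

/-- The weight `top l - al l` occurs. -/
def Low : Prop := ∀ l, ∃ i, ∀ j, D.n l i j = if j = l then 1 else 0

/-- The big cells are dense. -/
def Dn : Prop := ∀ j, Dense {g | D.rho j g 0 0 ≠ 0}

end GD

end Pool.Agent.Helper84.GDL
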