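import Pool.Agent.Helper84.GD.Inst
import Pool.Agent.Helper63.FQ.NullG
import Pool.Agent.Helper87.FQ.Bd4
import Pool.Agent.Helper55.FQ.Defs
import Pool.Agent.Helper66.OB.NotSl3
import Pool.Agent.Helper69.SLN.Root
import Pool.Agent.Helper85.AE.Smp

/-!
# Project FQ (MP_0f6f3f_an), layer GD: existence of the group data, with all properties

`Fx.dn`, `Fx.si`, `Fx.top_cor`, `Fx.top_cor0`: properties of `F.gd`. `exists_fx_rank`: existence for `L` simple of real rank `r`. `exists_gr`: the form for the assembly.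
-/

set_option autoImplicit false
set_option linter.unusedSectionVars false

open Matrix Filter Topology

namespace Pool.Agent.Helper84.GDL

open Pool.Agent.Helper96.SA Pool.Agent.Helper96.TO Pool.Agent.Helper72.FQ Pool.Agent.Helper90.FQ Pool.Agent.Helper77.FQ
  Pool.Agent.Helper77.AE Pool.Agent.Helper25.AE Pool.Agent.Helper68.FQ Pool.Agent.Helper35.TZ

variable {L : Type} [LieRing L] [LieAlgebra ℝ L] {N : ℕ} {θ : L ≃ₗ⁅ℝ⁆ L} {b : Module.Basis (Fin N) ℝ L} {A : Submodule ℝ L}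
  {τ : Module.Dual ℝ A ≃ₗ[ℝ] A} {ι : Type} [Fintype ι] [DecidableEq ι] {al : ι → Module.Dual ℝ A}

namespace Fx

variable (F : Fx θ b A τ al)

theorem dn : F.gd.Dn := fun j => by
  obtain ⟨i1, i2, i3⟩ := lcs_autC b
  exact Pool.Agent.Helper63.FQ.dense_entry F.gd (Pool.Agent.Helper63.FQ.autC_open_top F.s.h) j (F.gd_irr j) 0 0

theorem si [LieAlgebra.IsSimple ℝ L] [Nonempty ι] {Γ : Subgroup (autC b)} (hΓ : Pool.Agent.Helper96.FR.Lattice Γ) : SI F.gd Γ := by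
  obtain ⟨j⟩ := ‹Nonempty ι›
  exact Pool.Agent.Helper87.FQ.SI_of F.s.h ⟨(F.w j : L), cow_ne F.hw j, F.s.hA.neg _ (F.w j).2⟩ hΓ F.gd
    (fun l g hg => (F.gd_rho_T l (g := g) (g' := g) hg.symm).symm) F.gd_irr

theorem top_eq (l k : ι) : ∑ i, F.gd.top l i * al i (τ (al k)) = topf F.W l (τ (al k)) := by
  unfold topf
  rw [LinearMap.sum_apply]
  rfl

theorem top_cor {l k : ι} (hk : k ≠ l) : ∑ i, F.gd.top l i * al i (τ (al k)) = 0 := by
  rw [F.top_eq]
  exact topf_tau_ne F.W l F.s.hτ F.s.h F.s.hA F.s.li F.s.hS.root hk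

theorem top_cor0 (l : ι) : 0 < ∑ i, F.gd.top l i * al i (τ (al l)) := by
  rw [F.top_eq]
  exact topf_tau_pos F.W l F.s.hτ F.s.h F.s.hA F.s.li F.s.hS.root

theorem top_pos (l : ι) : 0 < F.gd.top l l := by
  have h := tp_pos F.W l F.s.li F.s.hS.root
  change (0 : ℝ) < (tp F.W l l : ℝ)
  exact_mod_cast h

end Fx

/-- The choices exist. -/
theorem exists_fx_rank [LieAlgebra.IsSimple ℝ L] (h : CartanBasis θ b) {r : ℕ} (hr : rankL θ = r) (h0 : 0 < r) :
    ∃ (A : Submodule ℝ L) (τ : Module.Dual ℝ A ≃ₗ[ℝ] A) (al : Fin r → Module.Dual ℝ A), Nonempty (Fx θ b A τ al) := by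
  obtain ⟨A, hA⟩ := Pool.Agent.Helper66.OB.exists_flat h
  obtain ⟨τ, hτ⟩ := Pool.Agent.Helper69.SLN.exists_tau h hA
  have hfr : Module.finrank ℝ A = r := (Pool.Agent.Helper66.OB.finrank_flat h hA).trans hr
  subst hfr
  obtain ⟨al, hS, hli, hob, hpm⟩ := Pool.Agent.Helper85.AE.exists_smp h hA hτ h0
  exact ⟨A, τ, al, exists_fx ⟨h, hA, hτ, hS, hli, fun i j hij => hob j i (Ne.symm hij)⟩ hpm⟩

/-- **Layer GD, the form for the assembly.** -/
theorem exists_gr [LieAlgebra.IsSimple ℝ L] {r : ℕ} (h : CartanBasis θ b) (hr : rankL θ = r) (h2 : 2 ≤ r) :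
    ∃ (A : Submodule ℝ L) (τ : Module.Dual ℝ A ≃ₗ[ℝ] A) (al : Fin r → Module.Dual ℝ A) (W : Fin r → A) (D : GD (autC b) (Fin r)),
      Pool.Agent.Helper55.FQ.Gr θ b A τ al W D ∧ ∀ Γ : Subgroup (autC b), Pool.Agent.Helper96.FR.Lattice Γ → SI D Γ := by
  obtain ⟨A, τ, al, ⟨F⟩⟩ := exists_fx_rank h hr (by omega)
  have : Nonempty (Fin r) := ⟨⟨0, by omega⟩⟩
  exact ⟨A, τ, al, F.w, F.gd, {
    s := F.s
    cmb := F.pm
    hW := F.hw
    ea := F.gd_ea
    K := F.mem_K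
    low := F.low
    dn := F.dn
    top0 := fun u k hk => F.top_cor hk
    top1 := fun u => (F.top_cor0 u).ne'
    rhoT := fun l g g' hg => F.gd_rho_T l hg
    irr := F.gd_irr }, fun Γ hΓ => F.si hΓ⟩

end Pool.Agent.Helper84.GDL
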