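import Pool.Agent.Helper84.GD.PD
import Pool.Agent.Helper46.FQ.Rt
import Pool.Agent.Helper72.FQ.Kak
import Pool.Agent.Helper77.FQ.Cst
import Pool.Agent.Helper77.FQ.Pl
import Pool.Agent.Helper90.FQ.Nr4
import Pool.Agent.Helper68.FQ.Lev
import Pool.Agent.Helper68.FQ.Eb
import Pool.Agent.Helper50.FQ.CelR
import Pool.Agent.Helper50.FQ.Cel
import Pool.Agent.Helper90.FQ.Nr5
import Pool.Agent.Helper35.TZ.Fin2

/-!
# Project FQ (MP_0f6f3f_an), layer GD: the group data of `autC b`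

`Fx θ b A τ al`: the choices (weight basis, bases of the modules, fundamental coweights). `Fx.Cll`: the clause `cell`. `gdOf F hc : GD (autC b) ι`: `K` the orthogonal elements, `ea = eaG`.
-/

set_option autoImplicit false
set_option linter.unusedSectionVars false

open Matrix Filter Topology

namespace Pool.Agent.Helper84.GDL

open Pool.Agent.Helper96.SA Pool.Agent.Helper96.TO Pool.Agent.Helper72.FQ Pool.Agent.Helper90.FQ Pool.Agent.Helper77.FQ
  Pool.Agent.Helper77.AE Pool.Agent.Helper25.AE Pool.Agent.Helper68.FQ Pool.Agent.Helper35.TZ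

variable {L : Type} [LieRing L] [LieAlgebra ℝ L] {N : ℕ} {θ : L ≃ₗ⁅ℝ⁆ L} {b : Module.Basis (Fin N) ℝ L} {A : Submodule ℝ L}
  {τ : Module.Dual ℝ A ≃ₗ[ℝ] A} {ι : Type} [Fintype ι] [DecidableEq ι] {al : ι → Module.Dual ℝ A}

/-- The choices for the group data of `autC b`. -/
structure Fx (θ : L ≃ₗ⁅ℝ⁆ L) (b : Module.Basis (Fin N) ℝ L) (A : Submodule ℝ L) (τ : Module.Dual ℝ A ≃ₗ[ℝ] A)
    (al : ι → Module.Dual ℝ A) where
  s : SD θ b A τ al
  pm : Cmb A al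
  /-- the weight basis -/
  W : Wb b A al
  /-- the weight bases of the modules -/
  B : ∀ l, NB W l
  /-- the fundamental coweights -/
  w : ι → A
  hw : ∀ i j, al i (w j) = if i = j then 1 else 0
  hw' : ∀ H : A, H = ∑ i, al i H • w i

theorem td_of (s : SD θ b A τ al) (pm : Cmb A al) : TD θ b A al where
  h := s.h
  hA := s.hA
  li := s.li
  rt := s.hS.root
  pm := pm

theorem exists_fx (s : SD θ b A τ al) (pm : Cmb A al) : Nonempty (Fx θ b A τ al) := by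
  obtain ⟨W⟩ := (td_of s pm).exists_wb
  have hB : ∀ l, Nonempty (NB W l) := fun l => exists_NB W l s.li
  obtain ⟨w, hw, hw'⟩ := exists_cow s.h s.hS s.li
  exact ⟨⟨s, pm, W, fun l => (hB l).some, w, hw, hw'⟩⟩

namespace Fx

variable (F : Fx θ b A τ al)

/-- The flat in the coordinates given by the simple roots. -/
noncomputable def ea (c : ι → ℝ) : autC b := eaG (isAdj_autC b) F.w c

/-- The Cartan decomposition. -/
theorem exists_kak (g : autC b) : ∃ k ∈ Pool.Agent.Helper46.FQ.KS (autC b), ∃ k' ∈ Pool.Agent.Helper46.FQ.KS (autC b), ∃ c : ι → ℝ,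
    (∀ i, 0 ≤ c i) ∧ g = k * F.ea c * k' := by
  obtain ⟨k, k', hk, hk', hkk, hkk', a, ha, e⟩ := (td_of F.s F.pm).exists_kak (isAdj_autC b) g.2
  refine ⟨⟨k, hk⟩, hkk, ⟨k', hk'⟩, hkk', fun i => al i a, ha, ?_⟩
  have h1 := eaG_al (isAdj_autC b) F.hw' a
  apply Subtype.ext
  rw [Subgroup.coe_mul, Subgroup.coe_mul, ea, h1]
  exact e

/-- The entry `(0, 0)` as a coefficient. -/
theorem rho_00 (j : ι) (g : autC b) : (F.B j).rho F.s.h F.s.li g 0 0 =
    ∑ I, (F.B j).Q I 0 * RT (hat F.W.O ((g : GL (Fin N) ℝ) : Mat N)) (fun J => (F.B j).Q J 0) I := by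
  rw [NB.rho_apply, NB.rr, Matrix.mul_apply]
  refine Finset.sum_congr rfl fun I _ => ?_
  rw [Matrix.transpose_apply]
  congr 1

theorem ea_single (j : ι) (t : ℝ) : ((F.ea (Pi.single j t) : autC b) : GL (Fin N) ℝ) = ex (t • TT_to b (F.w j : L)) := by
  rw [ea, eaG_coe, eaA_single, Submodule.coe_smul, map_smul]

/-- The clause of the big cell. -/
theorem cell (j : ι) (δ : ℝ) (hδ : 0 < δ) (B : Set (autC b)) (hB : IsCompact B) : ∃ B' : Set (autC b), IsCompact B' ∧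
    ∀ g ∈ B, δ ≤ |(F.B j).rho F.s.h F.s.li g 0 0| → ∃ x ∈ B', ∃ l ∈ B', ∃ y ∈ B', g = x * l * y ∧
      Tendsto (fun t : ℝ => F.ea (Pi.single j t) * x * F.ea (Pi.single j (-t))) atTop (𝓝 1) ∧
      (∀ t : ℝ, l * F.ea (Pi.single j t) = F.ea (Pi.single j t) * l) ∧
      Tendsto (fun t : ℝ => F.ea (Pi.single j (-t)) * y * F.ea (Pi.single j t)) atTop (𝓝 1) :=
  Pool.Agent.Helper50.FQ.cell_of F.s.h (F.s.hA.neg _ (F.w j).2) (cow_ne F.hw j) (cow_line F.s.h F.s.hA F.s.hS F.hw j)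
    (f := fun g => (F.B j).rho F.s.h F.s.li g 0 0)
    (((F.B j).rho_cont F.s.h F.s.li).matrix_elem 0 0)
    (fun g hg => Pool.Agent.Helper50.FQ.tv_of_NB F.W j (F.B j) (fun i => F.hw i j) (by rw [← F.rho_00]; exact hg))
    (a := fun t => F.ea (Pi.single j t)) (F.ea_single j) hδ hB

/-- The left part. -/
noncomputable def kL (g : autC b) : autC b := (F.exists_kak g).choose

theorem kL_mem (g : autC b) : F.kL g ∈ Pool.Agent.Helper46.FQ.KS (autC b) := (F.exists_kak g).choose_spec.1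

/-- The right part. -/
noncomputable def kR (g : autC b) : autC b := (F.exists_kak g).choose_spec.2.choose

theorem kR_mem (g : autC b) : F.kR g ∈ Pool.Agent.Helper46.FQ.KS (autC b) := (F.exists_kak g).choose_spec.2.choose_spec.1

/-- The gaps. -/
noncomputable def mu (g : autC b) : ι → ℝ := (F.exists_kak g).choose_spec.2.choose_spec.2.choose

theorem mu_nonneg (g : autC b) (i : ι) : 0 ≤ F.mu g i := (F.exists_kak g).choose_spec.2.choose_spec.2.choose_spec.1 i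

theorem kak (g : autC b) : g = F.kL g * F.ea (F.mu g) * F.kR g := (F.exists_kak g).choose_spec.2.choose_spec.2.choose_spec.2

theorem rho_T (l : ι) {g g' : autC b} (hg : ((g' : GL (Fin N) ℝ) : Mat N) = ((g : GL (Fin N) ℝ) : Mat N)ᵀ) :
    (F.B l).rho F.s.h F.s.li g' = ((F.B l).rho F.s.h F.s.li g)ᵀ := (F.B l).rho_transpose F.s.h F.s.li hg

theorem ea_symm (c : ι → ℝ) : (((F.ea c : autC b) : GL (Fin N) ℝ) : Mat N)ᵀ = ((F.ea c : autC b) : GL (Fin N) ℝ) := by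
  have h1 : (TT_to b (eaA F.w c : L))ᵀ = TT_to b (eaA F.w c : L) := by
    rw [F.W.dg, Matrix.transpose_mul, Matrix.transpose_mul, Matrix.transpose_transpose, Matrix.diagonal_transpose, Matrix.mul_assoc]
  change (NormedSpace.exp (TT_to b (eaA F.w c : L)))ᵀ = NormedSpace.exp (TT_to b (eaA F.w c : L))
  rw [← Matrix.exp_transpose, h1]

include F in
/-- The transpose of an element of `autC b`. -/
theorem exists_T (g : autC b) : ∃ g' : autC b, ((g' : GL (Fin N) ℝ) : Mat N) = ((g : GL (Fin N) ℝ) : Mat N)ᵀ := by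
  have hinv : ∀ k ∈ Pool.Agent.Helper46.FQ.KS (autC b), (((k⁻¹ : autC b) : GL (Fin N) ℝ) : Mat N) = ((k : GL (Fin N) ℝ) : Mat N)ᵀ := by
    intro k hk
    exact Units.inv_eq_of_mul_eq_one_left hk
  refine ⟨(F.kR g)⁻¹ * F.ea (F.mu g) * (F.kL g)⁻¹, ?_⟩
  have h1 : ((g : GL (Fin N) ℝ) : Mat N) = ((F.kL g : GL (Fin N) ℝ) : Mat N) * ((F.ea (F.mu g) : autC b) : GL (Fin N) ℝ) * ((F.kR g : GL (Fin N) ℝ) : Mat N) := by
    conv_lhs => rw [F.kak g]
    rfl
  have h2 : ((((F.kR g)⁻¹ * F.ea (F.mu g) * (F.kL g)⁻¹ : autC b) : GL (Fin N) ℝ) : Mat N) =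
      (((F.kR g)⁻¹ : autC b) : GL (Fin N) ℝ) * ((F.ea (F.mu g) : autC b) : GL (Fin N) ℝ) * (((F.kL g)⁻¹ : autC b) : GL (Fin N) ℝ) := rfl
  rw [h2, hinv _ (F.kR_mem g), hinv _ (F.kL_mem g), h1, Matrix.transpose_mul, Matrix.transpose_mul, F.ea_symm, Matrix.mul_assoc]

theorem rho_ea (l : ι) (c : ι → ℝ) : (F.B l).rho F.s.h F.s.li (F.ea c) =
    diagonal fun i => Real.exp (∑ j, ((tp F.W l j : ℝ) - (F.B l).n i j) * c j) := by
  have h1 := (F.B l).rho_ea F.s.h F.s.li (eaA F.w c) (eaG (isAdj_autC b) F.w c).2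
  refine h1.trans ?_
  simp_rw [al_eaA F.hw]

theorem e0' (l : ι) {g : autC b} (hg : ∀ i, i ≠ 0 → (F.B l).rho F.s.h F.s.li g 0 i = 0) :
    RT (hat F.W.O ((g : GL (Fin N) ℝ) : Mat N))ᵀ (v0 F.W l) = (F.B l).rho F.s.h F.s.li g 0 0 • v0 F.W l := by
  obtain ⟨g', hg'⟩ := F.exists_T g
  have h1 := F.rho_T l hg'
  have h2 := (F.B l).rho_e0 F.s.h F.s.li (g := g') fun i hi => by rw [h1, Matrix.transpose_apply]; exact hg i hi
  rw [h1, Matrix.transpose_apply, hg'] at h2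
  rw [hat_transpose]
  exact h2

/-- The top functional on the coweights. -/
theorem topf_w (l j : ι) : topf F.W l (F.w j) = tp F.W l j := by
  unfold topf
  rw [LinearMap.sum_apply, Finset.sum_eq_single j]
  · rw [LinearMap.smul_apply, F.hw, if_pos rfl, smul_eq_mul, mul_one]
  · intro k _ hk
    rw [LinearMap.smul_apply, F.hw, if_neg hk, smul_eq_mul, mul_zero]
  · intro h
    exact absurd (Finset.mem_univ _) h

/-- **The group data of `autC b`.** -/
noncomputable def gd : GD (autC b) ι where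
  K := Pool.Agent.Helper46.FQ.KS (autC b)
  cpt := Pool.Agent.Helper46.FQ.isCompact_KS (isAdj_autC b).closed
  ea := F.ea
  ea_add := eaG_add (isAdj_autC b) F.s.hA F.w
  ea_cont := eaG_cont (isAdj_autC b) F.w
  kL := F.kL
  kR := F.kR
  mu := F.mu
  kL_mem := F.kL_mem
  kR_mem := F.kR_mem
  mu_nonneg := F.mu_nonneg
  kak := F.kak
  d l := (F.B l).M
  rho l := (F.B l).rho F.s.h F.s.li
  rho_cont l := (F.B l).rho_cont F.s.h F.s.li
  orth l k hk := (F.B l).rho_orth F.s.h F.s.li hk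
  n l := (F.B l).n
  top l j := tp F.W l j
  top_nonneg l j := by exact_mod_cast tp_nonneg F.W l j
  rho_ea := F.rho_ea
  n_zero l := (F.B l).n0
  n_pos l := (F.B l).nl
  C := cC τ al (topf F.W)
  C_top c i := by
    have h1 := cC_top' (τ := τ) F.hw F.hw' (T := topf F.W) (fun l k hk => topf_tau_ne F.W l F.s.hτ F.s.h F.s.hA F.s.li F.s.hS.root hk)
      (fun l => topf_tau_pos F.W l F.s.hτ F.s.h F.s.hA F.s.li F.s.hS.root) c i
    simp_rw [F.topf_w] at h1
    exact h1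
  C_nonpos i l hil := cC_nonpos F.s (fun l => topf_tau_pos F.W l F.s.hτ F.s.h F.s.hA F.s.li F.s.hS.root) hil
  C_pos j := cC_pos F.s (fun l => topf_tau_pos F.W l F.s.hτ F.s.h F.s.hA F.s.li F.s.hS.root) j
  par j B hB := by
    obtain ⟨B', hB', h1⟩ := par_W F.s.h F.s.hA F.s.hS (isAdj_autC b) F.W F.hw j hB
    exact ⟨B', hB', fun g hg hi t ht => h1 g hg ⟨_, (F.B j).rho_e0 F.s.h F.s.li hi⟩ t ht⟩
  par' j B hB := by
    obtain ⟨B', hB', h1⟩ := par_W' F.s.h F.s.hA F.s.hS (isAdj_autC b) F.W F.hw j hB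
    exact ⟨B', hB', fun g hg hi t ht => h1 g hg ⟨_, F.e0' j hi⟩ t ht⟩
  cell := F.cell
  lev S l hl := by
    obtain ⟨k1, hk1, k2, hk2, c, hc, h1, h2⟩ := lev_G (td_of F.s F.pm) (isAdj_autC b) F.hw F.hw' S l hl
    exact ⟨k1, hk1, k2, hk2, c, hc, h1, h2⟩

/-- The weight `top l - al l` occurs. -/
theorem low : F.gd.Low := fun l => (F.B l).exists_low F.s.hτ F.s.h F.s.hA F.s.li F.s.hS.root

theorem mem_K (g : autC b) : g ∈ F.gd.K ↔ ((g : GL (Fin N) ℝ) : Mat N)ᵀ * ((g : GL (Fin N) ℝ) : Mat N) = 1 := Iff.rfl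

theorem gd_ea (c : ι → ℝ) : F.gd.ea c = eaG (isAdj_autC b) F.w c := rfl

theorem gd_rho_T (l : ι) {g g' : autC b} (hg : ((g' : GL (Fin N) ℝ) : Mat N) = ((g : GL (Fin N) ℝ) : Mat N)ᵀ) :
    F.gd.rho l g' = (F.gd.rho l g)ᵀ := F.rho_T l hg

theorem gd_irr (l : ι) (S : Submodule ℝ (Fin (F.gd.d l + 1) → ℝ)) (hS : ∀ g, ∀ w ∈ S, F.gd.rho l g *ᵥ w ∈ S) : S = ⊥ ∨ S = ⊤ :=
  (F.B l).irr F.s.h F.s.li S hS

end Fx

end Pool.Agent.Helper84.GDL
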